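import Pool.Agent.N824.CN.Tub

/-!
# The nearest point retraction onto a compact submanifold, II
-/

set_option autoImplicit false
set_option maxSynthPendingDepth 3
set_option linter.unusedSectionVars false

open Set Filter Topology Metric Function
open scoped Manifold ContDiff

noncomputable section

namespace Pool.Agent.N824.CN

open Pool.Agent.Y522 Pool.Agent.Y954.SH Pool.Agent.N824.CR

/-- charts are local diffeomorphisms -/
theorem exists_param {n : ℕ} {N : Type} [TopologicalSpace N] [ChartedSpace (E n) N]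
    [IsManifold (𝓡 n) ∞ N] (y0 : N) : ∃ A : E n → N, A 0 = y0 ∧ LD n A 0 := by
  obtain ⟨c, hc⟩ : ∃ c, c = chartAt (E n) y0 := ⟨_, rfl⟩
  have hcs : y0 ∈ c.source := by rw [hc]; exact mem_chart_source _ _
  have hc1 : ContMDiffOn (𝓡 n) (𝓡 n) ∞ c c.source := by
    rw [hc]
    exact contMDiffOn_chart
  have hc2 : ContMDiffOn (𝓡 n) (𝓡 n) ∞ c.symm c.target := by
    rw [hc]
    exact contMDiffOn_chart_symm
  have hLc : LD n (fun z => c.symm z) (c y0) :=
    ⟨{ toPartialEquiv := c.symm.toPartialEquiv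
       open_source := c.symm.open_source
       open_target := c.symm.open_target
       contMDiffOn_toFun := hc2
       contMDiffOn_invFun := hc1 }, c.map_source hcs, fun _ _ => rfl⟩
  refine ⟨fun z => c.symm (z + c y0), ?_, ?_⟩
  · beta_reduce
    rw [zero_add, c.left_inv hcs]
  · refine LD.comp_fun (g := fun z => c.symm z) (f := fun z => z + c y0) ?_ (LD_add_const _ _)
    rw [zero_add]
    exact hLc

variable {n : ℕ} {N : Type} [TopologicalSpace N] [ChartedSpace (E n) N] [IsManifold (𝓡 n) ∞ N]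
  {W : Type} [NormedAddCommGroup W] [InnerProductSpace ℝ W] [FiniteDimensional ℝ W]

/-- the nearest point projection -/
theorem exists_proj [CompactSpace N] [Nonempty N] {em : N → W}
    (hem : ContMDiff (𝓡 n) 𝓘(ℝ, W) ∞ em) (hinj : Injective em)
    (himm : ∀ y, ∃ A : E n → N, A 0 = y ∧ LD n A 0 ∧
      ∀ v, fderiv ℝ (fun z => em (A z)) 0 v = 0 → v = 0) :
    ∃ P : W → N, (∀ y, P (em y) = y) ∧
      ∀ y0, ∀ᶠ w in 𝓝 (em y0), ContMDiffAt 𝓘(ℝ, W) (𝓡 n) ∞ P w := by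
  classical
  have hcont : Continuous em := hem.continuous
  have hex : ∀ w : W, ∃ y, ∀ y', ‖em y - w‖ ≤ ‖em y' - w‖ := by
    intro w
    obtain ⟨y, -, hy⟩ := isCompact_univ.exists_isMinOn (univ_nonempty (α := N))
      (f := fun y => ‖em y - w‖) (hcont.sub continuous_const).norm.continuousOn
    exact ⟨y, fun y' => hy (mem_univ y')⟩
  choose P hP using hex
  refine ⟨P, ?_, ?_⟩
  · intro y
    apply hinj
    have h1 := hP (em y) y
    rw [sub_self, norm_zero] at h1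
    exact sub_eq_zero.1 (norm_le_zero_iff.1 h1)
  intro y0
  obtain ⟨A, hA0, hA, hai'⟩ := himm y0
  obtain ⟨B, hB, hBA, hBl, hBr⟩ := hA.exists_inverse
  rw [hA0] at hB hBA hBr
  have hclosed : IsClosedEmbedding em := hcont.isClosedEmbedding hinj
  -- the projection is continuous at the points of the manifold
  have hPt : Tendsto P (𝓝 (em y0)) (𝓝 y0) := by
    rw [hclosed.isInducing.nhds_eq_comap, tendsto_comap_iff, tendsto_iff_norm_sub_tendsto_zero]
    have h1 : Tendsto (fun w : W => 2 * ‖w - em y0‖) (𝓝 (em y0)) (𝓝 0) := by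
      have : Continuous fun w : W => 2 * ‖w - em y0‖ := by fun_prop
      have h2 := this.tendsto (em y0)
      simpa using h2
    refine squeeze_zero (fun _ => norm_nonneg _) (fun w => ?_) h1
    have h2 := hP w y0
    calc ‖(em ∘ P) w - em y0‖ = ‖(em (P w) - w) + (w - em y0)‖ := by
          congr 1
          show em (P w) - em y0 = _
          abel
      _ ≤ ‖em (P w) - w‖ + ‖w - em y0‖ := norm_add_le _ _
      _ ≤ ‖em y0 - w‖ + ‖w - em y0‖ := by gcongr
      _ = 2 * ‖w - em y0‖ := by rw [norm_sub_rev (em y0) w]; ring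
  obtain ⟨a, ha⟩ : ∃ a : E n → W, a = fun z => em (A z) := ⟨_, rfl⟩
  have hae : ∀ z, a z = em (A z) := fun z => by rw [ha]
  have has : ∀ᶠ z in 𝓝 (0 : E n), ContDiffAt ℝ ∞ a z := by
    filter_upwards [hA.eventually] with z hz
    have h2 : ContMDiffAt (𝓡 n) 𝓘(ℝ, W) ∞ (em ∘ A) z := (hem _).comp z hz.contMDiffAt
    rw [ha]
    exact contMDiffAt_iff_contDiffAt.1 h2
  have hai : ∀ v, fderiv ℝ a 0 v = 0 → v = 0 := by
    rw [ha]
    exact hai'
  obtain ⟨ζ, hζ0, hζs, hζ⟩ := zeta has hai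
  have ha0 : a 0 = em y0 := by rw [hae, hA0]
  rw [ha0] at hζ0 hζs hζ
  -- the projection in the chart
  have hz : Tendsto (fun w => B (P w)) (𝓝 (em y0)) (𝓝 0) := by
    have h1 : Tendsto B (𝓝 y0) (𝓝 (B y0)) := hB.continuousAt
    rw [hBA] at h1
    exact h1.comp hPt
  have hkey : ∀ᶠ w in 𝓝 (em y0), P w = A (ζ w) := by
    have e1 : ∀ᶠ w in 𝓝 (em y0), A (B (P w)) = P w := hPt.eventually hBr
    have e2 : ∀ᶠ w in 𝓝 (em y0), ContDiffAt ℝ ∞ a (B (P w)) := hz.eventually has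
    have e3 : ∀ᶠ w in 𝓝 (em y0), (∀ v, inner ℝ (fderiv ℝ a (B (P w)) v)
        (a (B (P w)) - w) = 0) → B (P w) = ζ w := by
      have h1 : Tendsto (fun w => (B (P w), w)) (𝓝 (em y0)) (𝓝 (0, em y0)) := by
        rw [nhds_prod_eq]
        exact hz.prodMk tendsto_id
      exact h1.eventually hζ
    filter_upwards [e1, e2, e3] with w w1 w2 w3
    rw [← w3 ?_, w1]
    intro v
    have h1 : IsLocalMin (fun z => ‖a z - w‖ ^ 2) (B (P w)) := by
      refine Eventually.of_forall fun z => ?_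
      have h2 : ‖a (B (P w)) - w‖ ≤ ‖a z - w‖ := by
        rw [hae, w1, hae]
        exact hP w _
      show ‖a (B (P w)) - w‖ ^ 2 ≤ ‖a z - w‖ ^ 2
      gcongr
    have h2 : HasFDerivAt (fun z => a z - w) (fderiv ℝ a (B (P w))) (B (P w)) :=
      (w2.differentiableAt (by simp)).hasFDerivAt.sub_const w
    have h3 := h1.hasFDerivAt_eq_zero h2.norm_sq
    have h4 := congrArg (fun L : E n →L[ℝ] ℝ => L v) h3
    have h5 : (2 : ℕ) • inner ℝ (a (B (P w)) - w) (fderiv ℝ a (B (P w)) v) = 0 := h4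
    rw [real_inner_comm]
    rw [nsmul_eq_mul] at h5
    have h6 : ((2 : ℕ) : ℝ) ≠ 0 := by norm_num
    exact (mul_eq_zero.1 h5).resolve_left h6
  have hLDζ : ∀ᶠ w in 𝓝 (em y0), LD n A (ζ w) := by
    have h1 : Tendsto ζ (𝓝 (em y0)) (𝓝 (ζ (em y0))) := hζs.self_of_nhds.continuousAt
    rw [hζ0] at h1
    exact h1.eventually hA.eventually
  filter_upwards [hkey.eventually_nhds, hζs, hLDζ] with w w1 w2 w3
  have h1 : ContMDiffAt 𝓘(ℝ, W) (𝓡 n) ∞ (A ∘ ζ) w :=
    w3.contMDiffAt.comp w (contMDiffAt_iff_contDiffAt.2 w2)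
  refine h1.congr_of_eventuallyEq ?_
  filter_upwards [w1] with w' hw'
  exact hw'

omit [InnerProductSpace ℝ W] in
/-- uniform constants -/
theorem unif [NormedSpace ℝ W] {V : Type} [NormedAddCommGroup V] [NormedSpace ℝ V] {Q : V → W}
    {K : Set V}
    (hK : IsCompact K) (hQ : ∀ y ∈ K, ∀ᶠ w in 𝓝 y, ContDiffAt ℝ ∞ Q w) :
    ∃ δ C : ℝ, 0 < δ ∧ 0 ≤ C ∧ ∀ y ∈ K, ∀ w w', ‖w - y‖ < δ → ‖w' - y‖ < δ →
      ContDiffAt ℝ ∞ Q w ∧ ‖fderiv ℝ Q w‖ ≤ C ∧
      ‖fderiv ℝ Q w - fderiv ℝ Q w'‖ ≤ C * ‖w - w'‖ := by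
  refine hK.induction_on (p := fun K => ∃ δ C : ℝ, 0 < δ ∧ 0 ≤ C ∧ ∀ y ∈ K, ∀ w w',
      ‖w - y‖ < δ → ‖w' - y‖ < δ →
      ContDiffAt ℝ ∞ Q w ∧ ‖fderiv ℝ Q w‖ ≤ C ∧
      ‖fderiv ℝ Q w - fderiv ℝ Q w'‖ ≤ C * ‖w - w'‖) ?_ ?_ ?_ ?_
  · exact ⟨1, 0, one_pos, le_rfl, fun y hy => absurd hy (by simp)⟩
  · rintro s t hst ⟨δ, C, h1, h2, h3⟩
    exact ⟨δ, C, h1, h2, fun y hy => h3 y (hst hy)⟩
  · rintro s t ⟨δ, C, h1, h2, h3⟩ ⟨δ', C', h1', h2', h3'⟩
    refine ⟨min δ δ', max C C', lt_min h1 h1', le_max_of_le_left h2, ?_⟩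
    rintro y (hy | hy) w w' hw hw'
    · obtain ⟨a1, a2, a3⟩ := h3 y hy w w' (hw.trans_le (min_le_left _ _))
        (hw'.trans_le (min_le_left _ _))
      refine ⟨a1, a2.trans (le_max_left _ _), a3.trans ?_⟩
      gcongr
      exact le_max_left _ _
    · obtain ⟨a1, a2, a3⟩ := h3' y hy w w' (hw.trans_le (min_le_right _ _))
        (hw'.trans_le (min_le_right _ _))
      refine ⟨a1, a2.trans (le_max_right _ _), a3.trans ?_⟩
      gcongr
      exact le_max_right _ _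
  · intro y0 hy0
    have h0 := hQ y0 hy0
    have h1' : ContDiffAt ℝ ∞ (fderiv ℝ Q) y0 := h0.self_of_nhds.fderiv_right (m := ∞) (by simp)
    have h1 : ContDiffAt ℝ 1 (fderiv ℝ Q) y0 := h1'.of_le (by simp)
    obtain ⟨C, t, ht, hC⟩ := h1.exists_lipschitzOnWith
    have h2 : ∀ᶠ w in 𝓝 y0, ‖fderiv ℝ Q w‖ < ‖fderiv ℝ Q y0‖ + 1 :=
      h1'.continuousAt.norm.eventually_lt_const (by linarith)
    obtain ⟨ρ, hρ, hb⟩ := Metric.mem_nhds_iff.1 (Filter.inter_mem (Filter.inter_mem ht h0) h2)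
    refine ⟨ball y0 (ρ / 2), mem_nhdsWithin_of_mem_nhds (ball_mem_nhds _ (by linarith)),
      ρ / 2, max C (‖fderiv ℝ Q y0‖ + 1), by linarith, le_max_of_le_left C.coe_nonneg, ?_⟩
    intro y hy w w' hw hw'
    have hin : ∀ w, ‖w - y‖ < ρ / 2 → (w ∈ t ∧ ContDiffAt ℝ ∞ Q w) ∧
        ‖fderiv ℝ Q w‖ < ‖fderiv ℝ Q y0‖ + 1 := by
      intro w hw
      refine hb ?_
      rw [mem_ball, dist_eq_norm] at hy ⊢
      calc ‖w - y0‖ = ‖(w - y) + (y - y0)‖ := by congr 1; abel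
        _ ≤ ‖w - y‖ + ‖y - y0‖ := norm_add_le _ _
        _ < ρ := by linarith
    obtain ⟨⟨b1, b2⟩, b3⟩ := hin w hw
    obtain ⟨⟨c1, c2⟩, c3⟩ := hin w' hw'
    refine ⟨b2, b3.le.trans (le_max_right _ _), ?_⟩
    have h5 := hC.dist_le_mul w b1 w' c1
    rw [dist_eq_norm, dist_eq_norm] at h5
    refine h5.trans ?_
    gcongr
    exact le_max_left _ _

/-- existence of retractions -/
theorem exists_retr [CompactSpace N] [Nonempty N] {em : N → W}
    (hem : ContMDiff (𝓡 n) 𝓘(ℝ, W) ∞ em) (hinj : Injective em)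
    (himm : ∀ y, ∃ A : E n → N, A 0 = y ∧ LD n A 0 ∧
      ∀ v, fderiv ℝ (fun z => em (A z)) 0 v = 0 → v = 0) :
    ∃ (P : W → N) (δ C : ℝ), Retr n em P δ C := by
  obtain ⟨P, hP1, hP2⟩ := exists_proj hem hinj himm
  have hcont : Continuous em := hem.continuous
  have hK : IsCompact (range em) := isCompact_range hcont
  obtain ⟨Q, hQ⟩ : ∃ Q : W → W, Q = fun w => em (P w) := ⟨_, rfl⟩
  have hQe : ∀ w, Q w = em (P w) := fun w => by rw [hQ]
  have hQK : ∀ y ∈ range em, ∀ᶠ w in 𝓝 y, ContDiffAt ℝ ∞ Q w := by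
    rintro _ ⟨y, rfl⟩
    filter_upwards [hP2 y] with w hw
    have h2 : ContMDiffAt 𝓘(ℝ, W) 𝓘(ℝ, W) ∞ (em ∘ P) w := (hem _).comp w hw
    rw [hQ]
    exact contMDiffAt_iff_contDiffAt.1 h2
  obtain ⟨δ1, C, hδ1, hC, hu⟩ := unif hK hQK
  -- uniform radius for the smoothness of `P`
  obtain ⟨δ2, hδ2, hs⟩ : ∃ δ2 : ℝ, 0 < δ2 ∧ ∀ y w, ‖w - em y‖ < δ2 →
      ContMDiffAt 𝓘(ℝ, W) (𝓡 n) ∞ P w := by
    have h1 : {w | ContMDiffAt 𝓘(ℝ, W) (𝓡 n) ∞ P w} ∈ 𝓝ˢ (range em) := by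
      rw [mem_nhdsSet_iff_forall]
      rintro _ ⟨y, rfl⟩
      exact hP2 y
    obtain ⟨U, hU, hKU, hUs⟩ := mem_nhdsSet_iff_exists.1 h1
    obtain ⟨δ, hδ, ht⟩ := hK.exists_thickening_subset_open hU hKU
    refine ⟨δ, hδ, fun y w hw => hUs (ht ?_)⟩
    rw [mem_thickening_iff]
    exact ⟨em y, mem_range_self y, by rwa [dist_eq_norm]⟩
  refine ⟨P, min δ1 δ2, 1 + C, ?_⟩
  have hfd : (fun w => em (P w)) = Q := by rw [hQ]
  exact {
    δ0 := lt_min hδ1 hδ2
    C0 := by linarith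
    si := hem
    left := hP1
    sP := fun y w hw => hs y w (hw.trans_le (min_le_right _ _))
    nT := fun y w hw => by
      rw [hfd]
      have h1 := (hu (em y) (mem_range_self y) w w (hw.trans_le (min_le_left _ _))
        (hw.trans_le (min_le_left _ _))).2.1
      calc ‖ContinuousLinearMap.id ℝ W - fderiv ℝ Q w‖ ≤
            ‖ContinuousLinearMap.id ℝ W‖ + ‖fderiv ℝ Q w‖ := norm_sub_le _ _
        _ ≤ 1 + C := by
            gcongr
            exact ContinuousLinearMap.norm_id_le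
    quad := fun y y' w hw hy' => by
      rw [hfd]
      have hw1 := hw.trans_le (min_le_left _ _)
      have hy1 := hy'.trans_le (min_le_left _ _)
      have hyy : ‖em y - em y‖ < δ1 := by rw [sub_self, norm_zero]; exact hδ1
      obtain ⟨a1, a2, a3⟩ := hu (em y) (mem_range_self y) w (em y) hw1 hyy
      have h2 : ‖Q (em y') - Q (em y) - fderiv ℝ Q (em y) (em y' - em y)‖ ≤
          C * ‖em y' - em y‖ * ‖em y' - em y‖ := by
        refine (convex_segment (em y) (em y')).norm_image_sub_le_of_norm_fderiv_le'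
          (𝕜 := ℝ) ?_ ?_ (left_mem_segment ℝ _ _) (right_mem_segment ℝ _ _)
        · intro z hz
          have hz' : ‖z - em y‖ ≤ ‖em y' - em y‖ := norm_sub_le_of_mem_segment hz
          exact (hu (em y) (mem_range_self y) z z (hz'.trans_lt hy1)
            (hz'.trans_lt hy1)).1.differentiableAt (by simp)
        · intro z hz
          have hz' : ‖z - em y‖ ≤ ‖em y' - em y‖ := norm_sub_le_of_mem_segment hz
          have h3 := (hu (em y) (mem_range_self y) z (em y) (hz'.trans_lt hy1) hyy).2.2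
          exact h3.trans (by gcongr)
      have h3 : (ContinuousLinearMap.id ℝ W - fderiv ℝ Q w) (em y' - em y) =
          (Q (em y') - Q (em y) - fderiv ℝ Q (em y) (em y' - em y)) -
          (fderiv ℝ Q w - fderiv ℝ Q (em y)) (em y' - em y) := by
        rw [hQe, hQe, hP1, hP1]
        simp only [sub_apply, ContinuousLinearMap.id_apply]
        abel
      rw [h3]
      calc _ ≤ ‖Q (em y') - Q (em y) - fderiv ℝ Q (em y) (em y' - em y)‖ +
            ‖(fderiv ℝ Q w - fderiv ℝ Q (em y)) (em y' - em y)‖ := norm_sub_le _ _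
        _ ≤ C * ‖em y' - em y‖ * ‖em y' - em y‖ +
            C * ‖w - em y‖ * ‖em y' - em y‖ := by
            refine add_le_add h2 ((ContinuousLinearMap.le_opNorm _ _).trans ?_)
            gcongr
        _ = C * (‖w - em y‖ + ‖em y' - em y‖) * ‖em y' - em y‖ := by ring
        _ ≤ (1 + C) * (‖w - em y‖ + ‖em y' - em y‖) * ‖em y' - em y‖ := by
            gcongr
            linarith }

end Pool.Agent.N824.CN
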