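import Pool.Agent.N824.CN.Final

/-!
# Recognition of closed manifolds by coarse maps close to a homotopy equivalence
-/

set_option autoImplicit false
set_option maxSynthPendingDepth 3
set_option linter.unusedSectionVars false

open Set Filter Topology Metric Function MeasureTheory
open scoped Manifold ContDiff

noncomputable section

namespace Pool.Agent.N824.CN

open Pool.Agent.Y522 Pool.Agent.Y954.SH Pool.Agent.N824.CR

variable {n : ℕ} {X : Type} [TopologicalSpace X] [ChartedSpace (E n) X]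
  {N : Type} [TopologicalSpace N] [ChartedSpace (E n) N] [IsManifold (𝓡 n) ∞ N]
  {W : Type} [NormedAddCommGroup W] [NormedSpace ℝ W] [FiniteDimensional ℝ W]

section

variable {em : N → W} {P : W → N} {δ0 Cr : ℝ} {ι : Type} [Fintype ι] {d : X → X → ℝ}
  {F : ℝ → X → N} {Fb : X → N} {V : Set X}
  {S : Set ℝ} {A : ι → E n → X}
  {B : ι → X → E n} {R κ ε : ι → ℝ} {H om : ι → ℝ → ℝ} {χ : ι → X → ℝ}

/-- the patched map is close to the given one -/
theorem Fam.close [T2Space X] (hf : Fam n em P δ0 Cr ι d F Fb V S A B R κ ε H om χ) {δ : ℝ}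
    (hδ : 0 < δ) :
    ∀ᶠ r in 𝓝[S ∩ Ioi 0] (0 : ℝ), ∀ x,
      ‖Gr (fun x => em (F r x)) A B R χ r x - em (F r x)‖ ≤ δ := by
  classical
  have hev : ∀ i : ι, ∀ᶠ r in 𝓝[S ∩ Ioi 0] (0 : ℝ), ∀ x ∈ tsupport (χ i),
      ‖Ml n (fun z => em (F r (A i z))) (R i) r (B i x) - em (F r x)‖ ≤ δ := by
    intro i
    have hsub := hf.sup i
    have hcpt : IsCompact (tsupport (χ i)) :=
      ((isCompact_closedBall (0 : E n) (R i)).image_of_continuousOn
        (hf.cht i).contOn).of_isClosed_subset (isClosed_tsupport _)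
        (hsub.trans (image_mono ball_subset_closedBall))
    obtain ⟨R', hR', hBR⟩ : ∃ R' : ℝ, R' < R i ∧ ∀ x ∈ tsupport (χ i), ‖B i x‖ ≤ R' := by
      rcases (tsupport (χ i)).eq_empty_or_nonempty with h | h
      · exact ⟨R i - 1, by linarith, by simp [h]⟩
      · have hcont : ContinuousOn (fun x => ‖B i x‖) (tsupport (χ i)) := fun x hx =>
          ((hf.cht i).ldB (hsub hx)).continuousAt.norm.continuousWithinAt
        obtain ⟨y, hy, hymax⟩ := hcpt.exists_isMaxOn h hcont
        exact ⟨‖B i y‖, (hf.cht i).mem (hsub hy), fun x hx => hymax hx⟩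
    have hRi := (hf.cht i).pos
    have l1 : ∀ᶠ r in 𝓝[S ∩ Ioi 0] (0 : ℝ), r < min (R i) (R i - R') := by
      have h1 : ∀ᶠ r in 𝓝 (0 : ℝ), r < min (R i) (R i - R') :=
        Iio_mem_nhds (lt_min hRi (by linarith))
      exact h1.filter_mono nhdsWithin_le_nhds
    have l2 : ∀ᶠ r in 𝓝[S ∩ Ioi 0] (0 : ℝ), om i r ≤ δ := by
      have h1 : ∀ᶠ r in 𝓝[>] (0 : ℝ), H i r * (r + om i r) < δ :=
        (hf.Hlim i).eventually_lt_const hδ
      have h2 : ∀ᶠ r in 𝓝[>] (0 : ℝ), om i r ≤ δ := by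
        filter_upwards [h1, self_mem_nhdsWithin] with r hr hr0
        have h3 := hf.H1 i r
        have h4 := hf.om0 i r
        have h5 : (0 : ℝ) < r := hr0
        nlinarith
      exact h2.filter_mono (nhdsWithin_mono _ inter_subset_right)
    filter_upwards [l1, l2, self_mem_nhdsWithin] with r hr1 hr2 hr3 x hx
    have hr0 : 0 < r := hr3.2
    have hBx := hBR x hx
    have h1 := (hf.cm i (B i x) ((hf.cht i).mem (hsub hx)) r hr3.1 hr0
      (hr1.trans_le (min_le_left _ _))).1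
    have hκ := (hf.cht i).one
    have h2 := Ml_close (ContinuousLinearMap.id ℝ W) (e := om i r) (hf.iF i r hr3.1) hr0
      (R := R i) (p := B i x) (by
        have := hr1.le.trans (min_le_right _ _)
        linarith) (by
        intro q hq
        refine h1 q (hq.trans ?_)
        have : 1 ≤ κ i ^ 2 := one_le_pow₀ hκ
        nlinarith)
    have h3 : ‖Ml n (fun z => em (F r (A i z))) (R i) r (B i x) - em (F r (A i (B i x)))‖ ≤
        om i r := h2
    rw [(hf.cht i).right (hsub hx)] at h3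
    exact h3.trans hr2
  filter_upwards [Filter.eventually_all.2 hev] with r hr x
  unfold Gr
  have hsum : ∑ o, Xo χ o x = 1 := by
    rw [Fintype.sum_option]
    show 1 - ∑ i, χ i x + ∑ i, χ i x = 1
    ring
  have e1 : ∑ o, Xo χ o x • go (fun x => em (F r x)) A B R r o x =
      ∑ o, Xo χ o x • (if Xo χ o x = 0 then em (F r x) else
        go (fun x => em (F r x)) A B R r o x) := by
    refine Finset.sum_congr rfl fun o _ => ?_
    by_cases h : Xo χ o x = 0
    · rw [h, zero_smul, zero_smul]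
    · rw [if_neg h]
  rw [e1]
  refine patchN Finset.univ (fun o => Xo χ o x) _ _ _ (fun o _ => hf.Xo_nn o x) hsum ?_
  intro o _
  by_cases h : Xo χ o x = 0
  · rw [if_pos h, sub_self, norm_zero]
    exact hδ.le
  · rw [if_neg h]
    cases o with
    | none =>
      show ‖em (F r x) - em (F r x)‖ ≤ δ
      rw [sub_self, norm_zero]
      exact hδ.le
    | some i =>
      have hx : x ∈ tsupport (χ i) := subset_tsupport _ h
      exact hr i x hx

end

/-- a retraction moves points by little -/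
theorem Retr.near {em : N → W} {P : W → N} {δ C : ℝ} (h : Retr n em P δ C) {y : N} {w : W}
    (hw : ‖w - em y‖ < δ) : ‖em (P w) - em y‖ ≤ (1 + C) * ‖w - em y‖ := by
  obtain ⟨Q, hQ⟩ : ∃ Q : W → W, Q = fun w => w - em (P w) := ⟨_, rfl⟩
  have hd : ∀ w ∈ ball (em y) δ, HasFDerivWithinAt Q
      (ContinuousLinearMap.id ℝ W - fderiv ℝ (fun w => em (P w)) w) (ball (em y) δ) w := by
    intro w hw
    rw [mem_ball_iff_norm] at hw
    rw [hQ]
    exact ((hasFDerivAt_id w).sub (h.diff hw).hasFDerivAt).hasFDerivWithinAt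
  have h1 := (convex_ball (em y) δ).norm_image_sub_le_of_norm_hasFDerivWithin_le hd
    (fun w hw => h.nT y w (mem_ball_iff_norm.1 hw)) (mem_ball_self h.δ0)
    (mem_ball_iff_norm.2 hw)
  rw [hQ] at h1
  have h2 : em (P w) - em y = (w - em y) - ((w - em (P w)) - (em y - em (P (em y)))) := by
    rw [h.left]
    abel
  rw [h2]
  calc _ ≤ ‖w - em y‖ + ‖(w - em (P w)) - (em y - em (P (em y)))‖ := norm_sub_le _ _
    _ ≤ ‖w - em y‖ + C * ‖w - em y‖ := by gcongr
    _ = _ := by ring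

/-- smoothing of families of coarsely monotone maps, with closeness -/
theorem globC [T2Space X] [LocallyCompactSpace X] [SecondCountableTopology X]
    [IsManifold (𝓡 n) ∞ X] {em : N → W} {P : W → N} {δ0 Cr : ℝ} (hret : Retr n em P δ0 Cr)
    (F : ℝ → X → N) (Fb : X → N) (V : Set X) (d : X → X → ℝ)
    [MeasurableSpace X] [BorelSpace X] [MeasurableSpace W] [BorelSpace W]
    (S : Set ℝ) (hS : (0 : ℝ) ∈ closure (S ∩ Ioi 0))
    (hFm : ∀ r ∈ S, Measurable fun x => em (F r x))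
    (hFB : ∀ r ∈ S, ∃ b : ℝ, ∀ x, ‖em (F r x)‖ ≤ b)
    (hV : IsOpen V) (hLDb : ∀ x ∈ V, LD n Fb x) (hFeq : ∀ r ∈ S, ∀ x ∈ V, F r x = Fb x)
    (hbad : ∀ x, x ∉ V → CMt n d S (fun r x => em (F r x)) x) (hK : IsCompact Vᶜ)
    (Z : Set X) (hZ : IsClosed Z) (hZV : Z ⊆ V) {T : Set ℝ} (hT : T ∈ 𝓝[S ∩ Ioi 0] (0 : ℝ))
    {δ : ℝ} (hδ : 0 < δ) :
    ∃ (F' : X → N) (C : Set X), IsCompact C ∧ Disjoint C Z ∧
      (∀ x, x ∉ C → x ∈ V ∧ F' x = Fb x) ∧ (∀ x, LD n F' x) ∧
      ∃ r ∈ S, r ∈ T ∧ ∀ x, ‖em (F' x) - em (F r x)‖ ≤ δ := by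
  classical
  have hch := fun x : {x : X // x ∉ V} => (hbad x.1 x.2).exists_cht
    (hZ.isOpen_compl.mem_nhds fun h => x.2 (hZV h))
  choose A B R κ ε H om hxA hAZ hcht hε0 hε1 hε4 hH1 hom hHl hcm using hch
  obtain ⟨t, ht⟩ := hK.elim_finite_subcover (fun x : {x : X // x ∉ V} => A x '' ball 0 (R x))
    (fun x => (hcht x).isOpen) (fun x hx => mem_iUnion.2 ⟨⟨x, hx⟩, hxA ⟨x, hx⟩⟩)
  have hU : IsOpen (⋃ i : t, A i '' ball 0 (R i)) := isOpen_iUnion fun i => (hcht i).isOpen
  have ht' : Vᶜ ⊆ ⋃ i : t, A i '' ball 0 (R i) := by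
    intro x hx
    obtain ⟨i, hi⟩ := mem_iUnion.1 (ht hx)
    obtain ⟨hi1, hi2⟩ := mem_iUnion.1 hi
    exact mem_iUnion.2 ⟨⟨i, hi1⟩, hi2⟩
  obtain ⟨K', hK', hKK', hK'U⟩ := exists_compact_between hK hU ht'
  obtain ⟨f, hf⟩ := SmoothPartitionOfUnity.exists_isSubordinate (𝓡 n) hK'.isClosed
    (fun i : t => A i '' ball 0 (R i)) (fun i => (hcht i).isOpen) hK'U
  have hfam : Fam n em P δ0 Cr t d F Fb V S (fun i => A i) (fun i => B i) (fun i => R i)
      (fun i => κ i)
      (fun i => ε i) (fun i => H i) (fun i => om i) (fun i x => f i x) :=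
    { ret := hret
      oV := hV
      LDb := hLDb
      Feq := hFeq
      cht := fun i => hcht i
      iF := fun i r hr => int_chartW (hcht i) (hFm r hr) (hFB r hr)
      cm := fun i => hcm i
      ε0 := fun i => hε0 i
      ε1 := fun i => hε1 i
      ε4 := fun i => hε4 i
      H1 := fun i => hH1 i
      om0 := fun i => hom i
      Hlim := fun i => hHl i
      sm := fun i => (f i).contMDiff
      nn := fun i x => f.nonneg i x
      le := fun x => by
        rw [← finsum_eq_sum_of_fintype]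
        exact f.sum_le_one x
      sup := fun i => hf i }
  have hsum : ∀ x ∈ K', ∑ i, f i x = 1 := fun x hx => by
    rw [← finsum_eq_sum_of_fintype]
    exact f.sum_eq_one hx
  obtain ⟨C, hC⟩ : ∃ C, C = ⋃ i : t, tsupport (f i) := ⟨_, rfl⟩
  have hCc : IsCompact C := by
    rw [hC]
    refine isCompact_iUnion fun i => ?_
    refine ((isCompact_closedBall (0 : E n) (R i)).image_of_continuousOn
      (hcht i).contOn).of_isClosed_subset (isClosed_tsupport _) ?_
    exact (hf i).trans (image_mono ball_subset_closedBall)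
  have hCZ : Disjoint C Z := by
    rw [hC, disjoint_iUnion_left]
    intro i
    exact (hAZ i).mono_left ((hf i).trans (image_mono ball_subset_closedBall))
  obtain ⟨G, hG⟩ : ∃ G : ℝ → X → W, G = fun r x => Gr (fun x => em (F r x))
    (fun i : t => A i) (fun i => B i)
    (fun i => R i) (fun i x => f i x) r x := ⟨_, rfl⟩
  have hloc : ∀ x0 ∈ C, ∀ᶠ z : ℝ × X in 𝓝[S ∩ Ioi 0] (0 : ℝ) ×ˢ 𝓝 x0,
      LD n (fun x => P (G z.1 x)) z.2 := by
    intro x0 hx0
    rw [hG]
    refine hfam.loc ?_ ?_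
    · rw [hC] at hx0
      exact mem_iUnion.1 hx0
    · by_cases h : x0 ∈ V
      · exact Or.inr h
      · left
        filter_upwards [isOpen_interior.mem_nhds (hKK' h)] with x hx
        exact hsum x (interior_subset hx)
  have hne : (𝓝[S ∩ Ioi 0] (0 : ℝ)).NeBot := mem_closure_iff_nhdsWithin_neBot.1 hS
  have hall : ∀ᶠ r in 𝓝[S ∩ Ioi 0] (0 : ℝ), ∀ x ∈ C, LD n (fun x => P (G r x)) x := by
    have h1 : {z : ℝ × X | LD n (fun x => P (G z.1 x)) z.2} ∈
        𝓝[S ∩ Ioi 0] (0 : ℝ) ×ˢ 𝓝ˢ C := hCc.mem_prod_nhdsSet_of_forall hloc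
    obtain ⟨u, hu, v, hv, huv⟩ := Filter.mem_prod_iff.1 h1
    filter_upwards [hu] with r hr x hx
    exact huv (mk_mem_prod hr (subset_of_mem_nhdsSet hv hx))
  have hallS : ∀ᶠ r in 𝓝[S ∩ Ioi 0] (0 : ℝ), r ∈ S := by
    filter_upwards [self_mem_nhdsWithin] with r hr
    exact hr.1
  have hδ' : 0 < min (δ0 / 2) (δ / (1 + Cr)) := by
    have := hret.δ0
    have := hret.C0
    positivity
  obtain ⟨r, ⟨⟨hr, hrS⟩, hrT⟩, hclose⟩ :=
    (((hall.and hallS).and hT).and (hfam.close hδ')).exists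
  have hCV : ∀ x, x ∉ C → x ∈ V := by
    intro x hx
    by_contra h
    apply hx
    have h2 := hsum x (interior_subset (hKK' h))
    have h3 : ∃ i : t, f i x ≠ 0 := by
      by_contra hcon
      push Not at hcon
      simp [hcon] at h2
    obtain ⟨i, hi⟩ := h3
    rw [hC]
    exact mem_iUnion.2 ⟨i, subset_tsupport _ hi⟩
  have hoff : ∀ x, x ∉ C → P (G r x) = Fb x := by
    intro x hx
    have h0 : ∀ i : t, f i x = 0 := by
      intro i
      by_contra h
      apply hx
      rw [hC]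
      exact mem_iUnion.2 ⟨i, subset_tsupport _ h⟩
    have hG1 : G r x = em (Fb x) := by
      rw [hG]
      show Gr (fun x => em (F r x)) (fun i : t => A i) (fun i => B i)
        (fun i => R i) (fun i x => f i x) r x = em (Fb x)
      unfold Gr
      rw [Fintype.sum_option]
      have e1 : Xo (fun (i : t) x => f i x) none x = 1 := by
        show 1 - ∑ i, f i x = 1
        simp [h0]
      rw [e1, one_smul]
      show em (F r x) + ∑ i : t, f i x • _ = em (Fb x)
      rw [hFeq r hrS x (hCV x hx)]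
      simp [h0]
    rw [hG1, hret.left]
  refine ⟨fun x => P (G r x), C, hCc, hCZ, fun x hx => ⟨hCV x hx, hoff x hx⟩, fun x => ?_,
    r, hrS, hrT, fun x => ?_⟩
  swap
  · have h1 : ‖G r x - em (F r x)‖ ≤ min (δ0 / 2) (δ / (1 + Cr)) := by
      rw [hG]
      exact hclose x
    have h0 := hret.δ0
    have hC0 := hret.C0
    have h2 := hret.near (y := F r x) (w := G r x) (by
      have := h1.trans (min_le_left _ _)
      linarith)
    refine h2.trans ?_
    have h3 := h1.trans (min_le_right _ _)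
    calc (1 + Cr) * ‖G r x - em (F r x)‖ ≤ (1 + Cr) * (δ / (1 + Cr)) := by gcongr
      _ = δ := by field_simp
  by_cases hx : x ∈ C
  · exact hr x hx
  · refine (hLDb x (hCV x hx)).congr ?_
    filter_upwards [hCc.isClosed.isOpen_compl.mem_nhds hx] with y hy
    exact hoff y hy

/-- a local homeomorphism which is homotopic to a map with a right homotopy inverse is bijective -/
theorem bij_of_homotopic {X N : Type} [TopologicalSpace X] [TopologicalSpace N]
    [CompactSpace X] [T2Space X] [ConnectedSpace X] [T2Space N]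
    {F : C(X, N)} (hF : IsLocalHomeomorph F) {h : C(X, N)} (hFh : F.Homotopic h) {s : C(N, X)}
    (hs : (h.comp s).Homotopic (ContinuousMap.id N)) : Bijective F := by
  have cov : IsCoveringMap F := isLocalHomeomorph_iff_isCoveringMap.1 hF
  have h1 : (F.comp s).Homotopic (ContinuousMap.id N) :=
    (hFh.comp (ContinuousMap.Homotopic.refl s)).trans hs
  obtain ⟨H⟩ := h1
  obtain ⟨σ, hσ⟩ : ∃ σ : C(N, X), ∀ y, F (σ y) = y := by
    let L := cov.liftHomotopy H.toContinuousMap s (fun a => by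
      show H (0, a) = F (s a)
      rw [H.apply_zero]
      rfl)
    refine ⟨⟨fun y => L (1, y), by fun_prop⟩, fun y => ?_⟩
    have h2 : F (L (1, y)) = H (1, y) := congrFun (cov.liftHomotopy_lifts H.toContinuousMap s _)
      (1, y)
    show F (L (1, y)) = y
    rw [h2, H.apply_one]
    rfl
  have hso : IsOpen (range σ) := by
    rw [isOpen_iff_mem_nhds]
    rintro _ ⟨y, rfl⟩
    obtain ⟨φ, hφ, hφF⟩ := hF (σ y)
    have h1 : φ.source ∈ 𝓝 (σ y) := φ.open_source.mem_nhds hφ
    have h2 : σ ⁻¹' φ.source ∈ 𝓝 y := σ.continuous.continuousAt.preimage_mem_nhds h1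
    have h3 : F ⁻¹' (σ ⁻¹' φ.source) ∈ 𝓝 (σ y) := by
      refine hF.continuous.continuousAt.preimage_mem_nhds ?_
      rwa [hσ y]
    filter_upwards [h1, h3] with x x1 x3
    have h4 : σ (F x) ∈ φ.source := x3
    refine ⟨F x, φ.injOn h4 x1 ?_⟩
    rw [← hφF, hσ]
  have hcN : CompactSpace N := by
    have h1 : Surjective F := fun y => ⟨σ y, hσ y⟩
    exact isCompact_univ_iff.1 (by
      rw [← h1.range_eq]
      exact isCompact_range hF.continuous)
  have hsc : IsClosed (range σ) := (isCompact_range σ.continuous).isClosed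
  have hne : (range σ).Nonempty := by
    obtain ⟨x0⟩ := (inferInstance : Nonempty X)
    exact ⟨σ (F x0), mem_range_self _⟩
  have hsu : range σ = univ := (isClopen_iff.1 ⟨hsc, hso⟩).resolve_left hne.ne_empty
  refine ⟨?_, fun y => ⟨σ y, hσ y⟩⟩
  intro a b hab
  obtain ⟨y, rfl⟩ : a ∈ range σ := by rw [hsu]; exact mem_univ _
  obtain ⟨z, rfl⟩ : b ∈ range σ := by rw [hsu]; exact mem_univ _
  rw [hσ, hσ] at hab
  rw [hab]

/-- recognition of closed manifolds by coarse maps close to a homotopy equivalence -/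
theorem recognitionH {n : ℕ} {M N W : Type} [TopologicalSpace M] [CompactSpace M] [T2Space M]
    [ConnectedSpace M] [SecondCountableTopology M] [MeasurableSpace M] [BorelSpace M]
    [ChartedSpace (E n) M] [IsManifold (𝓡 n) ∞ M]
    [TopologicalSpace N] [CompactSpace N] [T2Space N]
    [ChartedSpace (E n) N] [IsManifold (𝓡 n) ∞ N]
    [NormedAddCommGroup W] [InnerProductSpace ℝ W] [FiniteDimensional ℝ W]
    [MeasurableSpace W] [BorelSpace W]
    {em : N → W} (hem : ContMDiff (𝓡 n) 𝓘(ℝ, W) ∞ em) (hinj : Injective em)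
    (himm : ∀ y, ∃ A : E n → N, A 0 = y ∧ LD n A 0 ∧
      ∀ v, fderiv ℝ (fun z => em (A z)) 0 v = 0 → v = 0)
    (U Z : Set M) (hU : IsOpen U) (hZ : IsClosed Z) (hZU : Z ⊆ U) (g : M → N)
    (hg : ∀ x ∈ U, LD n g x) (d : M → M → ℝ) (S : Set ℝ) (hS : (0 : ℝ) ∈ closure (S ∩ Ioi 0))
    (f : ℝ → M → N) (hfm : ∀ r ∈ S, Measurable fun x => em (f r x))
    (hfe : ∀ r ∈ S, ∀ x ∈ U, f r x = g x)
    (hc : ∀ x, x ∉ U → CMt n d S (fun r x => em (f r x)) x)
    (h : C(M, N)) (s : C(N, M)) (hs : (h.comp s).Homotopic (ContinuousMap.id N))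
    (hfh : ∀ e > 0, ∃ δ > 0, ∀ r ∈ S, 0 < r → r < δ → ∀ x, ‖em (f r x) - em (h x)‖ ≤ e) :
    ∃ Φ : Diffeomorph (𝓡 n) (𝓡 n) M N ∞, (∀ x ∈ Z, Φ =ᶠ[𝓝 x] g) ∧
      ContinuousMap.Homotopic ⟨Φ, Φ.continuous⟩ h := by
  have hNe : Nonempty N := by
    obtain ⟨x⟩ := (inferInstance : Nonempty M)
    exact ⟨h x⟩
  obtain ⟨P, δ0, Cr, hret⟩ := exists_retr hem hinj himm
  have hlcM : LocallyCompactSpace M := ChartedSpace.locallyCompactSpace (E n) M
  have hb : ∃ b : ℝ, ∀ y, ‖em y‖ ≤ b := by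
    obtain ⟨b, hb⟩ := (isCompact_range hem.continuous).isBounded.exists_norm_le
    exact ⟨b, fun y => hb _ (mem_range_self y)⟩
  obtain ⟨b, hb⟩ := hb
  have hδ0 := hret.δ0
  obtain ⟨δ1, hδ1, hT⟩ := hfh (δ0 / 4) (by linarith)
  obtain ⟨F, C, hC, hCZ, hFC, hF, r, hrS, hrT, hclose⟩ := globC hret f g U d S hS hfm
    (fun r _ => ⟨b, fun x => hb _⟩)
    hU hg hfe hc hU.isClosed_compl.isCompact Z hZ hZU (T := {r | r ∈ S ∧ 0 < r ∧ r < δ1}) (by
      have h1 : ∀ᶠ r in 𝓝[S ∩ Ioi 0] (0 : ℝ), r < δ1 :=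
        Filter.Eventually.filter_mono nhdsWithin_le_nhds (Iio_mem_nhds hδ1)
      filter_upwards [self_mem_nhdsWithin, h1] with r hr hr1
      exact ⟨hr.1, hr.2, hr1⟩) (δ := δ0 / 4) (by linarith)
  have hloc : IsLocalDiffeomorph (𝓡 n) (𝓡 n) ∞ F := hF
  have hFc : Continuous F := continuous_iff_continuousAt.2 fun x => (hF x).continuousAt
  have hnear : ∀ x, ‖em (F x) - em (h x)‖ ≤ δ0 / 2 := by
    intro x
    have h1 := hclose x
    have h2 := hT r hrT.1 hrT.2.1 hrT.2.2 x
    calc ‖em (F x) - em (h x)‖ = ‖(em (F x) - em (f r x)) + (em (f r x) - em (h x))‖ := by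
          congr 1
          abel
      _ ≤ ‖em (F x) - em (f r x)‖ + ‖em (f r x) - em (h x)‖ := norm_add_le _ _
      _ ≤ δ0 / 2 := by linarith
  have hFh : ContinuousMap.Homotopic ⟨F, hFc⟩ h := by
    have hK : Continuous fun p : unitInterval × M =>
        P (em (h p.2) + (p.1 : ℝ) • (em (F p.2) - em (h p.2))) := by
      rw [continuous_iff_continuousAt]
      intro p
      have h1 : ‖(em (h p.2) + (p.1 : ℝ) • (em (F p.2) - em (h p.2))) - em (h p.2)‖ < δ0 := by
        rw [add_sub_cancel_left, norm_smul, Real.norm_of_nonneg p.1.2.1]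
        have h2 := hnear p.2
        have h3 := p.1.2.2
        calc (p.1 : ℝ) * ‖em (F p.2) - em (h p.2)‖ ≤ 1 * (δ0 / 2) := by gcongr
          _ < δ0 := by linarith
      have h2 : ContinuousAt P (em (h p.2) + (p.1 : ℝ) • (em (F p.2) - em (h p.2))) :=
        (hret.sP _ _ h1).continuousAt
      have h3 : Continuous fun p : unitInterval × M =>
          em (h p.2) + (p.1 : ℝ) • (em (F p.2) - em (h p.2)) := by
        have h4 := hem.continuous
        have h5 := h.continuous
        fun_prop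
      exact ContinuousAt.comp (f := fun p : unitInterval × M =>
          em (h p.2) + (p.1 : ℝ) • (em (F p.2) - em (h p.2))) h2 h3.continuousAt
    refine ContinuousMap.Homotopic.symm ⟨⟨⟨_, hK⟩, fun x => ?_, fun x => ?_⟩⟩
    · show P (em (h x) + ((0 : unitInterval) : ℝ) • (em (F x) - em (h x))) = h x
      simp [hret.left]
    · show P (em (h x) + ((1 : unitInterval) : ℝ) • (em (F x) - em (h x))) = F x
      simp [hret.left]
  have hbij : Bijective F := bij_of_homotopic (F := ⟨F, hFc⟩) hloc.isLocalHomeomorph hFh hs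
  refine ⟨hloc.diffeomorphOfBijective hbij, fun x hx => ?_, hFh⟩
  show F =ᶠ[𝓝 x] g
  have hxC : x ∉ C := fun h => disjoint_left.1 hCZ h hx
  filter_upwards [hC.isClosed.isOpen_compl.mem_nhds hxC] with y hy
  exact (hFC y hy).2

end Pool.Agent.N824.CN
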