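import Pool.Agent.N824.CN.Glob
import Pool.Agent.N824.CN.Proj

/-!
# Recognition of closed simply connected manifolds by coarsely monotone maps
-/

set_option autoImplicit false
set_option maxSynthPendingDepth 3
set_option linter.unusedSectionVars false

open Set Filter Topology Metric Function MeasureTheory
open scoped Manifold ContDiff

noncomputable section

namespace Pool.Agent.N824.CN

open Pool.Agent.Y522 Pool.Agent.Y954.SH Pool.Agent.N824.CR

/-- a local homeomorphism of a compact connected space to a simply connected one is bijective -/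
theorem bij_of_isLocalHomeomorph {X N : Type} [TopologicalSpace X] [TopologicalSpace N]
    [CompactSpace X] [T2Space X] [ConnectedSpace X] [T2Space N] [SimplyConnectedSpace N]
    [LocallyPathConnectedSpace N] {F : X → N} (hF : IsLocalHomeomorph F) : Bijective F := by
  have cov : IsCoveringMap F := isLocalHomeomorph_iff_isCoveringMap.1 hF
  obtain ⟨x0⟩ := (inferInstance : Nonempty X)
  obtain ⟨s, ⟨hs0, hs⟩, -⟩ := cov.existsUnique_continuousMap_lifts (ContinuousMap.id N) (F x0) x0 rfl
  have hs' : ∀ y, F (s y) = y := fun y => congrFun hs y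
  have hcN : CompactSpace N := by
    have h1 : Surjective F := fun y => ⟨s y, hs' y⟩
    exact isCompact_univ_iff.1 (by
      rw [← h1.range_eq]
      exact isCompact_range hF.continuous)
  -- the section is open
  have hso : IsOpen (range s) := by
    rw [isOpen_iff_mem_nhds]
    rintro _ ⟨y, rfl⟩
    obtain ⟨φ, hφ, hφF⟩ := hF (s y)
    have h1 : φ.source ∈ 𝓝 (s y) := φ.open_source.mem_nhds hφ
    have h2 : s ⁻¹' φ.source ∈ 𝓝 y := s.continuous.continuousAt.preimage_mem_nhds h1
    have h3 : F ⁻¹' (s ⁻¹' φ.source) ∈ 𝓝 (s y) := by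
      refine hF.continuous.continuousAt.preimage_mem_nhds ?_
      rwa [hs' y]
    filter_upwards [h1, h3] with x x1 x3
    have h4 : s (F x) ∈ φ.source := x3
    refine ⟨F x, φ.injOn h4 x1 ?_⟩
    rw [← hφF, hs']
  have hsc : IsClosed (range s) := (isCompact_range s.continuous).isClosed
  have hsu : range s = univ := by
    rcases isClopen_iff.1 ⟨hsc, hso⟩ with h | h
    · exfalso
      have : s (F x0) ∈ range s := mem_range_self _
      rw [h] at this
      exact this
    · exact h
  refine ⟨?_, fun y => ⟨s y, hs' y⟩⟩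
  intro a b hab
  obtain ⟨y, rfl⟩ : a ∈ range s := by rw [hsu]; exact mem_univ _
  obtain ⟨z, rfl⟩ : b ∈ range s := by rw [hsu]; exact mem_univ _
  rw [hs', hs'] at hab
  rw [hab]

/-- recognition of closed simply connected manifolds -/
theorem recognition {n : ℕ} {M N W : Type} [TopologicalSpace M] [CompactSpace M] [T2Space M]
    [ConnectedSpace M] [SecondCountableTopology M] [MeasurableSpace M] [BorelSpace M]
    [ChartedSpace (E n) M] [IsManifold (𝓡 n) ∞ M]
    [TopologicalSpace N] [CompactSpace N] [T2Space N] [SimplyConnectedSpace N]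
    [ChartedSpace (E n) N] [IsManifold (𝓡 n) ∞ N]
    [NormedAddCommGroup W] [InnerProductSpace ℝ W] [FiniteDimensional ℝ W]
    [MeasurableSpace W] [BorelSpace W]
    {em : N → W} (hem : ContMDiff (𝓡 n) 𝓘(ℝ, W) ∞ em) (hinj : Injective em)
    (himm : ∀ y, ∃ A : E n → N, A 0 = y ∧ LD n A 0 ∧
      ∀ v, fderiv ℝ (fun z => em (A z)) 0 v = 0 → v = 0)
    (U Z : Set M) (hU : IsOpen U) (hZ : IsClosed Z) (hZU : Z ⊆ U) (g : M → N)
    (hg : ∀ x ∈ U, LD n g x) (d : M → M → ℝ) (S : Set ℝ) (hS : (0 : ℝ) ∈ closure (S ∩ Ioi 0))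
    (f : ℝ → M → N) (hfm : ∀ r ∈ S, Measurable fun x => em (f r x))
    (hfe : ∀ r ∈ S, ∀ x ∈ U, f r x = g x)
    (hc : ∀ x, x ∉ U → CMt n d S (fun r x => em (f r x)) x) :
    ∃ Φ : Diffeomorph (𝓡 n) (𝓡 n) M N ∞, ∀ x ∈ Z, Φ =ᶠ[𝓝 x] g := by
  have hNe : Nonempty N := inferInstance
  obtain ⟨P, δ0, Cr, hret⟩ := exists_retr hem hinj himm
  have hlcM : LocallyCompactSpace M := ChartedSpace.locallyCompactSpace (E n) M
  have hlpN : LocallyPathConnectedSpace N := ChartedSpace.locallyPathConnectedSpace (E n) N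
  have hb : ∃ b : ℝ, ∀ y, ‖em y‖ ≤ b := by
    obtain ⟨b, hb⟩ := (isCompact_range hem.continuous).isBounded.exists_norm_le
    exact ⟨b, fun y => hb _ (mem_range_self y)⟩
  obtain ⟨b, hb⟩ := hb
  obtain ⟨F, C, hC, hCZ, hFC, hF⟩ := glob hret f g U d S hS hfm (fun r _ => ⟨b, fun x => hb _⟩)
    hU hg hfe hc hU.isClosed_compl.isCompact Z hZ hZU
  have hloc : IsLocalDiffeomorph (𝓡 n) (𝓡 n) ∞ F := hF
  refine ⟨hloc.diffeomorphOfBijective (bij_of_isLocalHomeomorph hloc.isLocalHomeomorph),
    fun x hx => ?_⟩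
  show F =ᶠ[𝓝 x] g
  have hxC : x ∉ C := fun h => disjoint_left.1 hCZ h hx
  filter_upwards [hC.isClosed.isOpen_compl.mem_nhds hxC] with y hy
  exact (hFC y hy).2

end Pool.Agent.N824.CN
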