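import Pool.Agent.N824.CN.Local
import Pool.Agent.N824.CR.Chart

/-!
# The local claim for families of coarsely monotone maps to a submanifold
-/

set_option autoImplicit false
set_option maxSynthPendingDepth 3

open Set Filter Topology Metric Function MeasureTheory
open scoped Manifold ContDiff Convolution

set_option linter.unusedSectionVars false

noncomputable section

namespace Pool.Agent.N824.CN

open Pool.Agent.Y522 Pool.Agent.Y954.SH Pool.Agent.N824.CR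

variable {n : ℕ} {X : Type} [TopologicalSpace X] [ChartedSpace (E n) X]
  {N : Type} [TopologicalSpace N] [ChartedSpace (E n) N] [IsManifold (𝓡 n) ∞ N]
  {W : Type} [NormedAddCommGroup W] [NormedSpace ℝ W] [FiniteDimensional ℝ W]

/-- coarse monotonicity of `h` near `p` at the scale `r` -/
def CM1 (n : ℕ) {W : Type} [NormedAddCommGroup W] [NormedSpace ℝ W] (h : E n → W) (p : E n)
    (κ ε H om r : ℝ) : Prop :=
  (∀ q, ‖q - p‖ ≤ κ ^ 2 * r → ‖h q - h p‖ ≤ om) ∧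
  ∀ u : E n, ‖u‖ = 1 → ∃ ℓ : W →L[ℝ] ℝ,
    (∀ q, ‖q - p‖ ≤ κ ^ 2 * r → ‖ℓ‖ * ‖h q - h p‖ ≤ H * r) ∧
    ∀ q q', ‖q - p‖ ≤ κ ^ 2 * r → ‖q' - p‖ ≤ κ ^ 2 * r → ∀ t : ℝ, 0 ≤ t →
      ‖q' - q - t • u‖ ≤ r / H → t - ε * r ≤ ℓ (h q') - ℓ (h q)

/-- `P` is a smooth retraction of the `δ`-neighbourhood of `em N` onto `N` -/
structure Retr (n : ℕ) {N : Type} [TopologicalSpace N] [ChartedSpace (E n) N]
    {W : Type} [NormedAddCommGroup W] [NormedSpace ℝ W] (em : N → W) (P : W → N)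
    (δ C : ℝ) : Prop where
  δ0 : 0 < δ
  C0 : 0 ≤ C
  si : ContMDiff (𝓡 n) 𝓘(ℝ, W) ∞ em
  left : ∀ y, P (em y) = y
  sP : ∀ y w, ‖w - em y‖ < δ → ContMDiffAt 𝓘(ℝ, W) (𝓡 n) ∞ P w
  nT : ∀ y w, ‖w - em y‖ < δ →
    ‖ContinuousLinearMap.id ℝ W - fderiv ℝ (fun w => em (P w)) w‖ ≤ C
  quad : ∀ y y' w, ‖w - em y‖ < δ → ‖em y' - em y‖ < δ →
    ‖(ContinuousLinearMap.id ℝ W - fderiv ℝ (fun w => em (P w)) w) (em y' - em y)‖ ≤
      C * (‖w - em y‖ + ‖em y' - em y‖) * ‖em y' - em y‖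

theorem Retr.diff {em : N → W} {P : W → N} {δ C : ℝ} (h : Retr n em P δ C) {y : N} {w : W}
    (hw : ‖w - em y‖ < δ) : DifferentiableAt ℝ (fun w => em (P w)) w := by
  have h2 : ContMDiffAt 𝓘(ℝ, W) 𝓘(ℝ, W) ∞ (em ∘ P) w := (h.si _).comp w (h.sP y w hw)
  exact (contMDiffAt_iff_contDiffAt.1 h2).differentiableAt (by simp)

/-- an immersion is bounded from below -/
theorem Retr.lower {em : N → W} {P : W → N} {δ C : ℝ} (h : Retr n em P δ C) {f : E n → N}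
    {p : E n} (hf : LD n f p) :
    ∃ ν : ℝ, 0 ≤ ν ∧ ∀ v, ‖v‖ ≤ ν * ‖fderiv ℝ (fun y => em (f y)) p v‖ := by
  obtain ⟨q, hq, hqp, hql, -⟩ := hf.exists_inverse
  have h1 : ContDiffAt ℝ ∞ (fun y => em (f y)) p := by
    have h2 : ContMDiffAt (𝓡 n) 𝓘(ℝ, W) ∞ (em ∘ f) p := (h.si _).comp p hf.contMDiffAt
    exact contMDiffAt_iff_contDiffAt.1 h2
  have h0 : ‖em (f p) - em (f p)‖ < δ := by
    rw [sub_self, norm_zero]
    exact h.δ0
  have h3 : ContDiffAt ℝ ∞ (fun w => q (P w)) (em (f p)) := by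
    have h4 : ContMDiffAt 𝓘(ℝ, W) (𝓡 n) ∞ P (em (f p)) := h.sP _ _ h0
    have h5 : ContMDiffAt (𝓡 n) (𝓡 n) ∞ q (P (em (f p))) := by
      rw [h.left]
      exact hq.contMDiffAt
    have h6 : ContMDiffAt 𝓘(ℝ, W) (𝓡 n) ∞ (q ∘ P) (em (f p)) := h5.comp _ h4
    exact contMDiffAt_iff_contDiffAt.1 h6
  have h7 := fderiv_comp p (h3.differentiableAt (by simp)) (h1.differentiableAt (by simp))
  have h8 : ((fun w => q (P w)) ∘ fun y => em (f y)) =ᶠ[𝓝 p] id := by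
    filter_upwards [hql] with y hy
    show q (P (em (f y))) = y
    rw [h.left, hy]
  rw [h8.fderiv_eq, fderiv_id] at h7
  refine ⟨‖fderiv ℝ (fun w => q (P w)) (em (f p))‖, norm_nonneg _, fun v => ?_⟩
  have h9 := congrArg (fun L : E n →L[ℝ] E n => L v) h7
  have h10 : v = fderiv ℝ (fun w => q (P w)) (em (f p)) (fderiv ℝ (fun y => em (f y)) p v) := h9
  conv_lhs => rw [h10]
  exact ContinuousLinearMap.le_opNorm _ _

/-- the patches -/
def go {ι : Type} (F : X → W) (A : ι → E n → X) (B : ι → X → E n) (R : ι → ℝ) (r : ℝ) :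
    Option ι → X → W
  | some i => fun x => Ml n (fun z => F (A i z)) (R i) r (B i x)
  | none => F

/-- the patched map -/
def Gr {ι : Type} [Fintype ι] (F : X → W) (A : ι → E n → X) (B : ι → X → E n) (R : ι → ℝ)
    (χ : ι → X → ℝ) (r : ℝ) (x : X) : W :=
  ∑ o, Xo χ o x • go F A B R r o x

/-- data of a finite family of charts -/
structure Fam (n : ℕ) {X : Type} [TopologicalSpace X] [ChartedSpace (E n) X]
    {N : Type} [TopologicalSpace N] [ChartedSpace (E n) N]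
    {W : Type} [NormedAddCommGroup W] [NormedSpace ℝ W] (em : N → W) (P : W → N) (δ Cr : ℝ)
    (ι : Type)
    [Fintype ι] (d : X → X → ℝ) (F : ℝ → X → N) (Fb : X → N) (V : Set X) (S : Set ℝ)
    (A : ι → E n → X) (B : ι → X → E n)
    (R κ ε : ι → ℝ) (H om : ι → ℝ → ℝ) (χ : ι → X → ℝ) : Prop where
  ret : Retr n em P δ Cr
  oV : IsOpen V
  LDb : ∀ x ∈ V, LD n Fb x
  Feq : ∀ r ∈ S, ∀ x ∈ V, F r x = Fb x
  cht : ∀ i, IsCht n d (A i) (B i) (R i) (κ i)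
  iF : ∀ i, ∀ r ∈ S, IntegrableOn (fun z => em (F r (A i z))) (closedBall 0 (R i))
  cm : ∀ i p, ‖p‖ < R i → ∀ r ∈ S, 0 < r → r < R i →
    CM1 n (fun z => em (F r (A i z))) p (κ i) (ε i) (H i r) (om i r) r
  ε0 : ∀ i, 0 ≤ ε i
  ε1 : ∀ i, C1 n * κ i ^ 2 * ε i ≤ 1
  ε4 : ∀ i, ε i ≤ 1 / 4
  H1 : ∀ i r, 1 ≤ H i r
  om0 : ∀ i r, 0 ≤ om i r
  Hlim : ∀ i, Tendsto (fun r => H i r * (r + om i r)) (𝓝[>] 0) (𝓝 0)
  sm : ∀ i, ContMDiff (𝓡 n) 𝓘(ℝ, ℝ) ∞ (χ i)
  nn : ∀ i x, 0 ≤ χ i x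
  le : ∀ x, ∑ i, χ i x ≤ 1
  sup : ∀ i, tsupport (χ i) ⊆ A i '' ball 0 (R i)

section

variable {em : N → W} {P : W → N} {δ0 Cr : ℝ} {ι : Type} [Fintype ι] {d : X → X → ℝ}
  {F : ℝ → X → N} {Fb : X → N} {V : Set X}
  {S : Set ℝ} {A : ι → E n → X}
  {B : ι → X → E n} {R κ ε : ι → ℝ} {H om : ι → ℝ → ℝ} {χ : ι → X → ℝ}

theorem Fam.Xo_smooth (hf : Fam n em P δ0 Cr ι d F Fb V S A B R κ ε H om χ) (o : Option ι) :
    ContMDiff (𝓡 n) 𝓘(ℝ, ℝ) ∞ (Xo χ o) := by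
  cases o with
  | some i => exact hf.sm i
  | none =>
    have h1 : ContMDiff (𝓡 n) 𝓘(ℝ, ℝ) ∞ (fun x => ∑ i, χ i x) :=
      contMDiff_finsetSum fun i _ => hf.sm i
    exact contMDiff_const.sub h1

theorem Fam.Xo_contDiffAt (hf : Fam n em P δ0 Cr ι d F Fb V S A B R κ ε H om χ) (o : Option ι) {i : ι} {z : E n}
    (hz : ‖z‖ ≤ R i) : ContDiffAt ℝ ∞ (fun y => Xo χ o (A i y)) z := by
  have h1 := ((hf.cht i).ld z hz).contMDiffAt
  have h2 : ContMDiffAt (𝓡 n) 𝓘(ℝ, ℝ) ∞ (Xo χ o ∘ A i) z :=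
    ((hf.Xo_smooth o).contMDiffAt).comp z h1
  exact contMDiffAt_iff_contDiffAt.1 h2

theorem Fam.Xo_nn (hf : Fam n em P δ0 Cr ι d F Fb V S A B R κ ε H om χ) (o : Option ι) (x : X) :
    0 ≤ Xo χ o x := by
  cases o with
  | some i => exact hf.nn i x
  | none => exact sub_nonneg.2 (hf.le x)

variable (A B R) in
/-- the finite set of relevant indices -/
theorem exists_t (F : ℝ → X → W) {x0 : X} (I : Finset ι) (V : Set X)
    (hI : ∀ i, i ∈ I ↔ x0 ∈ tsupport (χ i))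
    (hcase : (∀ᶠ x in 𝓝 x0, ∑ i, χ i x = 1) ∨ x0 ∈ V) :
    ∃ t : Finset (Option ι), (∀ o ∈ t, (o = none ∧ x0 ∈ V) ∨ ∃ i ∈ I, o = some i) ∧
      ∀ᶠ x in 𝓝 x0, (∑ o ∈ t, Xo χ o x = 1) ∧
        ∀ r, ∑ o ∈ t, Xo χ o x • go (F r) A B R r o x = Gr (F r) A B R χ r x := by
  classical
  have hz : ∀ᶠ x in 𝓝 x0, ∀ i, i ∉ I → χ i x = 0 := by
    refine Filter.eventually_all.2 fun i => ?_
    by_cases hi : i ∈ I
    · exact Eventually.of_forall fun x h => absurd hi h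
    · have h1 : x0 ∉ tsupport (χ i) := fun h => hi ((hI i).2 h)
      have h2 : χ i =ᶠ[𝓝 x0] 0 := notMem_tsupport_iff_eventuallyEq.1 h1
      filter_upwards [h2] with x hx _
      exact hx
  rcases hcase with hc | hc
  · refine ⟨I.map Embedding.some, ?_, ?_⟩
    · intro o ho
      obtain ⟨i, hi, rfl⟩ := Finset.mem_map.1 ho
      exact Or.inr ⟨i, hi, rfl⟩
    · filter_upwards [hz, hc] with x hx hx1
      have e1 : ∑ i ∈ I, χ i x = 1 := by
        rw [← hx1]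
        exact Finset.sum_subset (Finset.subset_univ I) fun i _ hi => hx i hi
      refine ⟨by simpa [Xo] using e1, fun r => ?_⟩
      unfold Gr
      rw [Fintype.sum_option, Finset.sum_map]
      have e2 : Xo χ none x = 0 := by
        show 1 - ∑ i, χ i x = 0
        rw [hx1, sub_self]
      rw [e2, zero_smul, zero_add]
      refine Finset.sum_subset (Finset.subset_univ I) fun i _ hi => ?_
      show χ i x • _ = 0
      rw [hx i hi, zero_smul]
  · refine ⟨Finset.insertNone I, ?_, ?_⟩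
    · intro o ho
      cases o with
      | none => exact Or.inl ⟨rfl, hc⟩
      | some i => exact Or.inr ⟨i, Finset.some_mem_insertNone.1 ho, rfl⟩
    · filter_upwards [hz] with x hx
      have e1 : ∑ i ∈ I, χ i x = ∑ i, χ i x :=
        Finset.sum_subset (Finset.subset_univ I) fun i _ hi => hx i hi
      refine ⟨?_, fun r => ?_⟩
      · rw [Finset.sum_insertNone]
        show 1 - ∑ i, χ i x + ∑ i ∈ I, χ i x = 1
        rw [e1]
        ring
      · unfold Gr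
        rw [Fintype.sum_option, Finset.sum_insertNone]
        congr 1
        refine Finset.sum_subset (Finset.subset_univ I) fun i _ hi => ?_
        show χ i x • _ = 0
        rw [hx i hi, zero_smul]

/-- the local claim -/
theorem Fam.loc (hf : Fam n em P δ0 Cr ι d F Fb V S A B R κ ε H om χ) {x0 : X}
    (hx0 : ∃ i, x0 ∈ tsupport (χ i))
    (hcase : (∀ᶠ x in 𝓝 x0, ∑ i, χ i x = 1) ∨ x0 ∈ V) :
    ∀ᶠ z : ℝ × X in 𝓝[S ∩ Ioi 0] (0 : ℝ) ×ˢ 𝓝 x0,
      LD n (fun x => P (Gr (fun x => em (F z.1 x)) A B R χ z.1 x)) z.2 := by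
  classical
  obtain ⟨I, hI⟩ : ∃ I : Finset ι, ∀ i, i ∈ I ↔ x0 ∈ tsupport (χ i) :=
    ⟨Finset.univ.filter fun i => x0 ∈ tsupport (χ i), fun i => by simp⟩
  have hIne : I.Nonempty := by
    obtain ⟨i, hi⟩ := hx0
    exact ⟨i, (hI i).2 hi⟩
  obtain ⟨i1, hi1, hmax⟩ := Finset.exists_max_image I (fun i => κ i) hIne
  obtain ⟨t, ht, hsum⟩ := exists_t A B R (χ := χ) (fun r x => em (F r x)) I V hI hcase
  have hW : ∀ i ∈ I, x0 ∈ A i '' ball 0 (R i) := fun i hi => hf.sup i ((hI i).1 hi)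
  have hW1 := hW i1 hi1
  have hC0 := hf.ret.C0
  have hK0 := C1_nonneg n
  -- transitions from the reference chart
  have htr : ∀ i : ι, ∃ ρ : ℝ, 0 < ρ ∧ (i ∈ I → ∀ p, ‖p - B i1 x0‖ < ρ → ‖p‖ < R i1 ∧
      A i1 p ∈ A i '' ball 0 (R i) ∧
        LD n (fun z => B i (A i1 z)) p ∧
        ‖fderiv ℝ (fun z => B i (A i1 z)) p‖ ≤ κ i1 * κ i) := by
    intro i
    by_cases hi : i ∈ I
    · obtain ⟨ρ, h1, h2, h3⟩ := (hf.cht i1).trans (hf.cht i) hW1 (hW i hi) one_pos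
      refine ⟨ρ, h1, fun _ p hp => ?_⟩
      obtain ⟨b1, b2, b3, b4, b5⟩ := h2 p hp
      exact ⟨b1, b2, b3, b5⟩
    · exact ⟨1, one_pos, fun h => absurd h hi⟩
  choose ρ hρ0 hρ using htr
  -- transitions to the reference chart
  have htr' : ∀ i : ι, ∃ ρ C : ℝ, 0 < ρ ∧ 0 ≤ C ∧ (i ∈ I → (∀ p, ‖p - B i x0‖ < ρ → ‖p‖ < R i ∧
      A i p ∈ A i1 '' ball 0 (R i1) ∧
        LD n (fun z => B i1 (A i z)) p) ∧
      (∀ p q, ‖p - B i x0‖ < ρ → ‖q - B i x0‖ < ρ →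
        ‖B i1 (A i q) - B i1 (A i p)‖ ≤ κ i * κ i1 * ‖q - p‖) ∧
      ∀ p r, (∀ q, ‖q - p‖ ≤ r → ‖q - B i x0‖ < ρ) →
      ∀ q q', ‖q - p‖ ≤ r → ‖q' - p‖ ≤ r →
        ‖B i1 (A i q') - B i1 (A i q) - fderiv ℝ (fun z => B i1 (A i z)) p (q' - q)‖ ≤
          C * r * ‖q' - q‖) := by
    intro i
    by_cases hi : i ∈ I
    · obtain ⟨ρ, h1, h2, h3⟩ := (hf.cht i).trans (hf.cht i1) (hW i hi) hW1 one_pos
      have h0 : ‖B i x0 - B i x0‖ < ρ := by rwa [sub_self, norm_zero]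
      obtain ⟨ρq, C, h4, h5, h6⟩ := quad_ball (h2 _ h0).2.2.1.contDiffAt
      refine ⟨min ρ ρq, C, lt_min h1 h4, h5, fun _ => ⟨fun p hp => ?_, fun p q hp hq => ?_,
        fun p r hpr q q' hq hq' => ?_⟩⟩
      · obtain ⟨b1, b2, b3, -, -⟩ := h2 p (hp.trans_le (min_le_left _ _))
        exact ⟨b1, b2, b3⟩
      · exact (h3 p q (hp.trans_le (min_le_left _ _)) (hq.trans_le (min_le_left _ _))).2
      · exact h6 p r (fun q hq => (hpr q hq).trans_le (min_le_right _ _)) q q' hq hq'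
    · exact ⟨1, 0, one_pos, le_rfl, fun h => absurd h hi⟩
  choose ρ' Cq hρ'0 hCq hρ' using htr'
  -- the good case
  have hgood : x0 ∈ V → LD n (fun w => Fb (A i1 w)) (B i1 x0) := by
    intro h
    refine LD.comp_fun (g := Fb) (f := A i1) ?_ ((hf.cht i1).ld _ ((hf.cht i1).mem hW1).le)
    rw [(hf.cht i1).right hW1]
    exact hf.LDb x0 h
  have hnone : ∃ (ρn ν δ C : ℝ) (e : E n →L[ℝ] W), 0 < ρn ∧ 0 ≤ ν ∧ 0 ≤ δ ∧ 0 ≤ C ∧
      ν * δ ≤ 1 / 4 ∧ (x0 ∈ V →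
      (∀ v, ‖v‖ ≤ ν * ‖e v‖) ∧
      (∀ p, ‖p - B i1 x0‖ < ρn → ‖fderiv ℝ (fun w => em (Fb (A i1 w))) p - e‖ ≤ δ) ∧
      (∀ p, ‖p - B i1 x0‖ < ρn → A i1 p ∈ V) ∧
      ∀ p r, (∀ q, ‖q - p‖ ≤ r → ‖q - B i1 x0‖ < ρn) →
      ∀ q, ‖q - p‖ ≤ r →
        ‖em (Fb (A i1 q)) - em (Fb (A i1 p)) - fderiv ℝ (fun w => em (Fb (A i1 w))) p (q - p)‖ ≤
          C * r * ‖q - p‖) := by
    by_cases h : x0 ∈ V
    · have h1 := hgood h
      obtain ⟨ν, hν0, hν⟩ := hf.ret.lower h1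
      have h2 : ContDiffAt ℝ ∞ (fun w => em (Fb (A i1 w))) (B i1 x0) := by
        have h3 : ContMDiffAt (𝓡 n) 𝓘(ℝ, W) ∞ (em ∘ fun w => Fb (A i1 w)) (B i1 x0) :=
          (hf.ret.si _).comp _ h1.contMDiffAt
        exact contMDiffAt_iff_contDiffAt.1 h3
      have hδ : 0 < 1 / (4 * (ν + 1)) := by positivity
      obtain ⟨ρn, C, a1, a5, a2, a6⟩ := quad_ballW h2 hδ
      have hAV : A i1 ⁻¹' V ∈ 𝓝 (B i1 x0) := by
        refine ((hf.cht i1).ld _ ((hf.cht i1).mem hW1).le).continuousAt.preimage_mem_nhds ?_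
        rw [(hf.cht i1).right hW1]
        exact hf.oV.mem_nhds h
      obtain ⟨ρv, a7, a8⟩ := Metric.mem_nhds_iff.1 hAV
      refine ⟨min ρn ρv, ν, 1 / (4 * (ν + 1)), C, _, lt_min a1 a7, hν0,
        hδ.le, a5, ?_, fun _ => ⟨hν, fun p hp =>
          a2 p (hp.trans_le (min_le_left _ _)),
        fun p hp => a8 (by
          rw [mem_ball, dist_eq_norm]
          exact hp.trans_le (min_le_right _ _)),
        fun p r hpr q hq =>
          a6 p r (fun q hq => (hpr q hq).trans_le (min_le_left _ _)) q hq⟩⟩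
      rw [mul_one_div, div_le_iff₀ (by positivity)]
      linarith
    · exact ⟨1, 0, 0, 0, 0, one_pos, le_rfl, le_rfl, le_rfl,
        by norm_num, fun h' => absurd h' h⟩
  obtain ⟨ρn, ν, δ, Cn, e, hρn0, hν0, hδ0, hCn0, hνδ, hρn⟩ := hnone
  -- the bound of the derivatives of the weights
  obtain ⟨D, hD⟩ : ∃ D : ℝ, D = ∑ o : Option ι,
      (‖fderiv ℝ (fun y => Xo χ o (A i1 y)) (B i1 x0)‖ + 1) := ⟨_, rfl⟩
  have hD0 : 0 ≤ D := by rw [hD]; positivity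
  have hDe : ∀ᶠ p in 𝓝 (B i1 x0), ∀ o : Option ι,
      ‖fderiv ℝ (fun y => Xo χ o (A i1 y)) p‖ ≤ D := by
    refine Filter.eventually_all.2 fun o => ?_
    have h1 := hf.Xo_contDiffAt o (i := i1) ((hf.cht i1).mem hW1).le
    have h2 : ContinuousAt (fderiv ℝ (fun y => Xo χ o (A i1 y))) (B i1 x0) :=
      (h1.fderiv_right (m := 0) (by simp)).continuousAt
    have h3 : ‖fderiv ℝ (fun y => Xo χ o (A i1 y)) (B i1 x0)‖ <
        ‖fderiv ℝ (fun y => Xo χ o (A i1 y)) (B i1 x0)‖ + 1 := by linarith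
    filter_upwards [h2.norm.eventually_lt_const h3] with p hp
    refine hp.le.trans ?_
    rw [hD]
    exact Finset.single_le_sum
      (f := fun o => ‖fderiv ℝ (fun y => Xo χ o (A i1 y)) (B i1 x0)‖ + 1)
      (fun o _ => by positivity) (Finset.mem_univ o)
  -- limits
  obtain ⟨l, hl⟩ : ∃ l : Filter (ℝ × X), l = 𝓝[S ∩ Ioi 0] (0 : ℝ) ×ˢ 𝓝 x0 := ⟨_, rfl⟩
  rw [← hl]
  have l1 : Tendsto (fun z : ℝ × X => z.1) l (𝓝 0) := by
    rw [hl]
    exact tendsto_fst.mono_right nhdsWithin_le_nhds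
  have l1' : Tendsto (fun z : ℝ × X => z.1) l (𝓝[>] 0) := by
    rw [hl]
    exact tendsto_fst.mono_right (nhdsWithin_mono _ inter_subset_right)
  have l0 : ∀ᶠ z : ℝ × X in l, z.1 ∈ S ∩ Ioi 0 := by
    rw [hl]
    have : ∀ᶠ r in 𝓝[S ∩ Ioi 0] (0 : ℝ), r ∈ S ∩ Ioi 0 := self_mem_nhdsWithin
    exact this.prod_inl _
  have lHo : Tendsto (fun z : ℝ × X => H i1 z.1 * (z.1 + om i1 z.1)) l (𝓝 0) :=
    (hf.Hlim i1).comp l1'
  have lH : Tendsto (fun z : ℝ × X => z.1 * H i1 z.1) l (𝓝 0) := by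
    refine squeeze_zero' ?_ ?_ lHo
    · filter_upwards [l0] with z hz
      have h1 : 0 < z.1 := hz.2
      have h2 := hf.H1 i1 z.1
      positivity
    · filter_upwards [l0] with z hz
      have h1 : 0 < z.1 := hz.2
      have h2 := hf.H1 i1 z.1
      have h3 := hf.om0 i1 z.1
      have h4 : 0 ≤ H i1 z.1 * om i1 z.1 := by positivity
      linarith [mul_add (H i1 z.1) z.1 (om i1 z.1)]
  have lO : Tendsto (fun z : ℝ × X => H i1 z.1 * om i1 z.1) l (𝓝 0) := by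
    refine squeeze_zero' ?_ ?_ lHo
    · filter_upwards [l0] with z hz
      have h2 := hf.H1 i1 z.1
      have h3 := hf.om0 i1 z.1
      positivity
    · filter_upwards [l0] with z hz
      have h1 : 0 < z.1 := hz.2
      have h2 := hf.H1 i1 z.1
      have h4 : 0 ≤ H i1 z.1 * z.1 := by positivity
      linarith [mul_add (H i1 z.1) z.1 (om i1 z.1)]
  have l2 : Tendsto (fun z : ℝ × X => z.2) l (𝓝 x0) := by
    rw [hl]
    exact tendsto_snd
  have lB : ∀ i ∈ I, Tendsto (fun z : ℝ × X => B i z.2) l (𝓝 (B i x0)) := fun i hi =>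
    ((hf.cht i).ldB (hW i hi)).continuousAt.tendsto.comp l2
  have q1 : ∀ᶠ z in l, ∀ i ∈ I, ‖B i1 z.2 - B i1 x0‖ < ρ i := by
    refine (Finset.eventually_all I).2 fun i _ => ?_
    have h1 : Tendsto (fun z : ℝ × X => ‖B i1 z.2 - B i1 x0‖) l
        (𝓝 (‖B i1 x0 - B i1 x0‖)) := ((lB i1 hi1).sub_const _).norm
    rw [sub_self, norm_zero] at h1
    exact h1.eventually_lt_const (hρ0 i)
  have q1' : ∀ᶠ z in l, ∀ i ∈ I, ‖B i z.2 - B i x0‖ + z.1 < ρ' i := by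
    refine (Finset.eventually_all I).2 fun i hi => ?_
    have h1 : Tendsto (fun z : ℝ × X => ‖B i z.2 - B i x0‖ + z.1) l
        (𝓝 (‖B i x0 - B i x0‖ + 0)) :=
      (((lB i hi).sub_const _).norm).add l1
    rw [sub_self, norm_zero, add_zero] at h1
    exact h1.eventually_lt_const (hρ'0 i)
  have q2 : ∀ᶠ z in l, ∀ i ∈ I, ‖B i z.2‖ + z.1 < R i := by
    refine (Finset.eventually_all I).2 fun i hi => ?_
    have h1 : Tendsto (fun z : ℝ × X => ‖B i z.2‖ + z.1) l (𝓝 (‖B i x0‖ + 0)) :=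
      ((lB i hi).norm).add l1
    rw [add_zero] at h1
    exact h1.eventually_lt_const ((hf.cht i).mem (hW i hi))
  have q3 : ∀ᶠ z in l, ∀ i ∈ I, z.2 ∈ A i '' ball 0 (R i) := by
    refine (Finset.eventually_all I).2 fun i hi => ?_
    exact l2.eventually ((hf.cht i).isOpen.mem_nhds (hW i hi))
  have small : ∀ (c b : ℝ) (f : ℝ × X → ℝ), Tendsto f l (𝓝 0) → 0 < b →
      ∀ᶠ z in l, c * f z < b := by
    intro c b f hf0 hb
    have h1 : Tendsto (fun z : ℝ × X => c * f z) l (𝓝 (c * 0)) := hf0.const_mul _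
    rw [mul_zero] at h1
    exact h1.eventually_lt_const hb
  have q4 := small (t.card * D) (1 / 16) _ lH (by norm_num)
  have q4' : ∀ᶠ z in l, ∀ i ∈ I, (2 * Cq i) * (z.1 * H i1 z.1) < 1 :=
    (Finset.eventually_all I).2 fun i hi => small (2 * Cq i) 1 _ lH one_pos
  have q4a := small (ν * Cn) (1 / 4) _ l1 (by norm_num)
  have q4b := small (8 * (ν * Cn)) 1 _ lH (by norm_num)
  have q4c := small ((κ i1 ^ 2 * C1 n + 1) * (2 * Cr)) (1 / 16) _ lO (by norm_num)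
  have q4d := small (2 * ν * Cn * Cr) (1 / 16) _ lH (by norm_num)
  have q4e := small (t.card * D * (2 * Cr)) (1 / 16) _ lO (by norm_num)
  have q4f := small 1 δ0 _ lO hf.ret.δ0
  have q4g := small 1 1 _ l1 one_pos
  have q5 := l2.eventually hsum.eventually_nhds
  have q6 := (lB i1 hi1).eventually hDe
  have q7 : ∀ᶠ z in l, ‖B i1 z.2 - B i1 x0‖ + z.1 < ρn := by
    have h1 : Tendsto (fun z : ℝ × X => ‖B i1 z.2 - B i1 x0‖ + z.1) l
        (𝓝 (‖B i1 x0 - B i1 x0‖ + 0)) :=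
      (((lB i1 hi1).sub_const _).norm).add l1
    rw [sub_self, norm_zero, add_zero] at h1
    exact h1.eventually_lt_const hρn0
  have q8 : ∀ᶠ z in l, x0 ∈ V → ∀ᶠ y in 𝓝 z.2, y ∈ V := by
    by_cases h : x0 ∈ V
    · filter_upwards [l2.eventually (hf.oV.eventually_mem h).eventually_nhds] with z hz _
      exact hz
    · exact Eventually.of_forall fun z h' => absurd h' h
  have q9 : ∀ᶠ z in l, z.1 < R i1 := l1.eventually_lt_const (hf.cht i1).pos
  filter_upwards [l0, q1, q1', q2, q3, q4, q4', q4a, q4b, q4c, q4d, q4e, q4f, q4g, q5, q6, q7, q8,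
    q9] with z z0' z1 z1' z2 z3 z4 z4' z4a z4b z4c z4d z4e z4f z4g z5 z6 z7 z8 z9
  obtain ⟨r, x⟩ := z
  simp only at z0' z1 z1' z2 z3 z4 z4' z4a z4b z4c z4d z4e z4f z4g z5 z6 z7 z8 z9 ⊢
  obtain ⟨zS, z0⟩ := z0'
  replace z0 : 0 < r := z0
  have hx1 := z3 i1 hi1
  obtain ⟨p, hp⟩ : ∃ p, p = B i1 x := ⟨_, rfl⟩
  have hAp : A i1 p = x := by rw [hp]; exact (hf.cht i1).right hx1
  have hpR : ‖p‖ < R i1 := by rw [hp]; exact (hf.cht i1).mem hx1
  rw [← hp] at z1 z6 z7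
  have hAc : ContinuousAt (A i1) p := ((hf.cht i1).ld p hpR.le).continuousAt
  have hκ1 := (hf.cht i1).one
  obtain ⟨hosc, hcm⟩ := hf.cm i1 p hpR r zS z0 z9
  obtain ⟨Hr, hHr⟩ : ∃ Hr, Hr = H i1 r := ⟨_, rfl⟩
  obtain ⟨Or, hOr⟩ : ∃ Or, Or = om i1 r := ⟨_, rfl⟩
  have hH1 : 1 ≤ Hr := by rw [hHr]; exact hf.H1 i1 r
  have hO0 : 0 ≤ Or := by rw [hOr]; exact hf.om0 i1 r
  rw [← hHr] at hcm z4 z4' z4b z4c z4d z4e z4f
  rw [← hOr] at hosc z4c z4e z4f
  have hκ2 : 1 ≤ κ i1 ^ 2 := one_le_pow₀ hκ1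
  have hκr : r ≤ κ i1 ^ 2 * r := by nlinarith
  have hOδ : Or < δ0 := by nlinarith
  obtain ⟨G, hG⟩ : ∃ G : X → W, G = fun x => em (F r x) := ⟨_, rfl⟩
  have hGe : ∀ y, em (F r y) = G y := fun y => by rw [hG]
  have hosc' : ∀ q, ‖q - p‖ ≤ κ i1 ^ 2 * r → ‖G (A i1 q) - G (A i1 p)‖ ≤ Or := by
    intro q hq
    rw [← hGe, ← hGe]
    exact hosc q hq
  -- geometry of the patches
  have hgeo : ∀ i ∈ I, (‖p‖ < R i1 ∧ A i1 p ∈ A i '' ball 0 (R i) ∧
        LD n (fun z => B i (A i1 z)) p ∧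
        ‖fderiv ℝ (fun z => B i (A i1 z)) p‖ ≤ κ i1 * κ i) ∧
      (B i (A i1 p) = B i x) ∧
      (∀ s, ‖s - B i (A i1 p)‖ ≤ r → ‖s - B i x0‖ < ρ' i) ∧
      (∀ s, ‖s - B i (A i1 p)‖ ≤ r →
        ‖B i1 (A i s) - B i1 (A i (B i (A i1 p)))‖ ≤ κ i1 ^ 2 * ‖s - B i (A i1 p)‖) ∧
      (B i1 (A i (B i (A i1 p))) = p) ∧
      (∀ s, ‖s - B i (A i1 p)‖ ≤ r → G (A i1 (B i1 (A i s))) = G (A i s)) ∧
      κ i1 * κ i ≤ κ i1 ^ 2 := by
    intro i hi
    have hr1 := hρ i hi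
    obtain ⟨hs1, hs2, hs3⟩ := hρ' i hi
    have hκi : κ i ≤ κ i1 := hmax i hi
    have hκi1 := (hf.cht i).one
    have hκκ : κ i * κ i1 ≤ κ i1 ^ 2 := by nlinarith
    have hbx : B i (A i1 p) = B i x := by rw [hAp]
    obtain ⟨b1, b2, b3, b4⟩ := hr1 p (z1 i hi)
    have hsρ : ∀ s, ‖s - B i (A i1 p)‖ ≤ r → ‖s - B i x0‖ < ρ' i := by
      intro s hs
      rw [hbx] at hs
      calc ‖s - B i x0‖ = ‖(s - B i x) + (B i x - B i x0)‖ := by congr 1; abel
        _ ≤ ‖s - B i x‖ + ‖B i x - B i x0‖ := norm_add_le _ _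
        _ < ρ' i := by linarith [z1' i hi]
    have hs0 : ‖B i (A i1 p) - B i x0‖ < ρ' i := hsρ _ (by simpa using z0.le)
    refine ⟨⟨b1, b2, b3, b4⟩, hbx, hsρ, fun s hs => ?_, ?_, fun s hs => ?_, by linarith⟩
    · refine (hs2 _ s hs0 (hsρ s hs)).trans ?_
      gcongr
    · rw [(hf.cht i).right b2, (hf.cht i1).left p hpR.le]
    · rw [(hf.cht i1).right (hs1 s (hsρ s hs)).2.1]
  -- the lower estimates for the patches
  have hest : ∀ u : E n, ‖u‖ = 1 → ∀ ℓ : W →L[ℝ] ℝ,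
      (∀ q q', ‖q - p‖ ≤ κ i1 ^ 2 * r → ‖q' - p‖ ≤ κ i1 ^ 2 * r → ∀ t : ℝ, 0 ≤ t →
        ‖q' - q - t • u‖ ≤ r / Hr → t - ε i1 * r ≤ ℓ (G (A i1 q')) - ℓ (G (A i1 q))) →
      ∀ i ∈ I,
      1 / 2 ≤ ℓ (fderiv ℝ (fun y => Ml n (fun w => G (A i w)) (R i) r (B i (A i1 y))) p u) := by
    intro u hu ℓ hℓ2 i hi
    have hr1 := hρ i hi
    obtain ⟨hs1, hs2, hs3⟩ := hρ' i hi
    obtain ⟨⟨b1, b2, b3, b4⟩, hbx, hsρ, hlip, hback, hGG, hκκ⟩ := hgeo i hi
    have hs0 : ‖B i (A i1 p) - B i x0‖ < ρ' i := hsρ _ (by simpa using z0.le)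
    obtain ⟨c1, c2, c3⟩ := hs1 _ hs0
    -- the composition of the transitions
    have hid : (fderiv ℝ (fun z => B i1 (A i z)) (B i (A i1 p)))
        (fderiv ℝ (fun z => B i (A i1 z)) p u) = u := by
      have d1 : HasFDerivAt (fun z => B i (A i1 z)) (fderiv ℝ (fun z => B i (A i1 z)) p) p :=
        (b3.contDiffAt.differentiableAt (by simp)).hasFDerivAt
      have d2 : HasFDerivAt (fun z => B i1 (A i z))
          (fderiv ℝ (fun z => B i1 (A i z)) (B i (A i1 p))) (B i (A i1 p)) :=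
        (c3.contDiffAt.differentiableAt (by simp)).hasFDerivAt
      have d3 := HasFDerivAt.comp p d2 d1
      have d4 : HasFDerivAt ((fun z => B i1 (A i z)) ∘ fun z => B i (A i1 z))
          (ContinuousLinearMap.id ℝ (E n)) p := by
        refine (hasFDerivAt_id p).congr_of_eventuallyEq ?_
        have w1 : ∀ᶠ y : E n in 𝓝 p, ‖y‖ < R i1 :=
          (isOpen_lt continuous_norm continuous_const).mem_nhds hpR
        have w2 : ∀ᶠ y in 𝓝 p, ‖y - B i1 x0‖ < ρ i := by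
          have : Continuous fun q : E n => ‖q - B i1 x0‖ := by fun_prop
          exact (isOpen_lt this continuous_const).mem_nhds (z1 i hi)
        filter_upwards [w1, w2] with y y1 y2
        show B i1 (A i (B i (A i1 y))) = y
        rw [(hf.cht i).right (hr1 y y2).2.1, (hf.cht i1).left y y1.le]
      have d5 := d3.unique d4
      have d6 := congrArg (fun L : E n →L[ℝ] E n => L u) d5
      simpa using d6
    obtain ⟨w, hw⟩ : ∃ w, w = fderiv ℝ (fun z => B i (A i1 z)) p u := ⟨_, rfl⟩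
    rw [← hw] at hid
    have hw0 : w ≠ 0 := by
      intro h
      rw [h, map_zero] at hid
      rw [← hid, norm_zero] at hu
      exact zero_ne_one hu
    have hwn : ‖w‖ ≤ κ i1 ^ 2 := by
      rw [hw]
      refine (ContinuousLinearMap.le_opNorm _ _).trans ?_
      rw [hu, mul_one]
      exact b4.trans hκκ
    have hT : ∀ s s', ‖s - B i (A i1 p)‖ ≤ r → ‖s' - B i (A i1 p)‖ ≤ r →
        ‖B i1 (A i s') - B i1 (A i s) -
          fderiv ℝ (fun z => B i1 (A i z)) (B i (A i1 p)) (s' - s)‖ ≤ r / Hr := by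
      intro s s' hs hs'
      refine (hs3 (B i (A i1 p)) r hsρ s s' hs hs').trans ?_
      have h8 : ‖s' - s‖ ≤ 2 * r := by
        calc ‖s' - s‖ = ‖(s' - B i (A i1 p)) - (s - B i (A i1 p))‖ := by congr 1; abel
          _ ≤ ‖s' - B i (A i1 p)‖ + ‖s - B i (A i1 p)‖ := norm_sub_le _ _
          _ ≤ 2 * r := by linarith
      rw [le_div_iff₀ (by linarith)]
      have hC := hCq i
      calc Cq i * r * ‖s' - s‖ * Hr ≤ Cq i * r * (2 * r) * Hr := by gcongr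
        _ = ((2 * Cq i) * (r * Hr)) * r := by ring
        _ ≤ 1 * r := by
            have := (z4' i hi).le
            gcongr
        _ = r := one_mul r
    exact estP (n := n) (h1 := fun w => G (A i1 w)) (h2 := fun w => G (A i w))
      (φ := fun y => B i (A i1 y)) (ψ := fun y => B i1 (A i y)) (p := p) (u := u) (w := w)
      (r := r) (κ := κ i1) (ε := ε i1) (H := Hr) (R2 := R i) (ℓ := ℓ)
      (T := fderiv ℝ (fun z => B i1 (A i z)) (B i (A i1 p))) z0 hback hGG hlip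
      hT hw hid hw0 hwn hℓ2 (by rw [hG]; exact hf.iF i r zS) (by
        show ‖B i (A i1 p)‖ + r ≤ R i
        rw [hbx]
        exact (z2 i hi).le)
      (b3.contDiffAt.differentiableAt (by simp)) (hf.ε0 i1) (hf.ε1 i1)
  -- the upper estimates for the patches
  have hestU : ∀ u : E n, ‖u‖ = 1 → ∀ (ℓ : W →L[ℝ] ℝ) (b : ℝ),
      (∀ q, ‖q - p‖ ≤ κ i1 ^ 2 * r → |ℓ (G (A i1 q) - G (A i1 p))| ≤ b) → ∀ i ∈ I,
      |ℓ (fderiv ℝ (fun y => Ml n (fun w => G (A i w)) (R i) r (B i (A i1 y))) p u)| ≤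
        κ i1 ^ 2 * C1 n * (b / r) ∧
      |ℓ (Ml n (fun w => G (A i w)) (R i) r (B i (A i1 p)) - G x)| ≤ b := by
    intro u hu ℓ b hb i hi
    obtain ⟨⟨b1, b2, b3, b4⟩, hbx, hsρ, hlip, hback, hGG, hκκ⟩ := hgeo i hi
    have key := estU (n := n) (h1 := fun w => G (A i1 w)) (h2 := fun w => G (A i w))
      (φ := fun y => B i (A i1 y)) (ψ := fun y => B i1 (A i y)) (p := p) (u := u)
      (r := r) (κ := κ i1) (e := b) (R2 := R i) (ℓ := ℓ) z0 hback hGG hlip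
      (by
        refine (ContinuousLinearMap.le_opNorm _ _).trans ?_
        rw [hu, mul_one]
        exact b4.trans hκκ) hb (by rw [hG]; exact hf.iF i r zS) (by
        show ‖B i (A i1 p)‖ + r ≤ R i
        rw [hbx]
        exact (z2 i hi).le)
      (b3.contDiffAt.differentiableAt (by simp))
    refine ⟨key.1, ?_⟩
    have k2 : |ℓ (Ml n (fun w => G (A i w)) (R i) r (B i (A i1 p)) -
      G (A i (B i (A i1 p))))| ≤ b := key.2
    rw [(hf.cht i).right b2, hAp] at k2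
    rw [hAp]
    exact k2
  -- closeness of the patches
  have hestN : ∀ i ∈ I,
      ‖Ml n (fun w => G (A i w)) (R i) r (B i (A i1 p)) - G x‖ ≤ Or := by
    intro i hi
    obtain ⟨⟨b1, b2, b3, b4⟩, hbx, hsρ, hlip, hback, hGG, hκκ⟩ := hgeo i hi
    have key := estN (n := n) (h1 := fun w => G (A i1 w)) (h2 := fun w => G (A i w))
      (φ := fun y => B i (A i1 y)) (ψ := fun y => B i1 (A i y)) (p := p)
      (r := r) (κ := κ i1) (om := Or) (R2 := R i) z0 hback hGG hlip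
      hosc' (by rw [hG]; exact hf.iF i r zS) (by
        show ‖B i (A i1 p)‖ + r ≤ R i
        rw [hbx]
        exact (z2 i hi).le)
    have k2 : ‖Ml n (fun w => G (A i w)) (R i) r (B i (A i1 p)) -
      G (A i (B i (A i1 p)))‖ ≤ Or := key
    rw [(hf.cht i).right b2, hAp] at k2
    rw [hAp]
    exact k2
  -- the patched map
  obtain ⟨fs, hfs⟩ : ∃ fs : E n → W, fs = fun y => ∑ o ∈ t, Xo χ o (A i1 y) •
      go G A B R r o (A i1 y) := ⟨_, rfl⟩
  have z5' : ∀ᶠ y in 𝓝 p, (∑ o ∈ t, Xo χ o (A i1 y) = 1) ∧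
      ∑ o ∈ t, Xo χ o (A i1 y) • go G A B R r o (A i1 y) =
        Gr G A B R χ r (A i1 y) := by
    rw [← hAp] at z5
    filter_upwards [hAc.eventually z5] with y hy
    refine ⟨hy.1, ?_⟩
    rw [hG]
    exact hy.2 r
  have hsm : ∀ᶠ y in 𝓝 p, ∀ o ∈ t, ContDiffAt ℝ ∞ (fun y => Xo χ o (A i1 y)) y ∧
      ContDiffAt ℝ ∞ (fun y => go G A B R r o (A i1 y)) y := by
    have w1 : ∀ᶠ y : E n in 𝓝 p, ‖y‖ < R i1 :=
      (isOpen_lt continuous_norm continuous_const).mem_nhds hpR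
    have w2 : ∀ᶠ y in 𝓝 p, ∀ i ∈ I, ‖y - B i1 x0‖ < ρ i := by
      refine (Finset.eventually_all I).2 fun i hi => ?_
      have : Continuous fun q : E n => ‖q - B i1 x0‖ := by fun_prop
      exact (isOpen_lt this continuous_const).mem_nhds (z1 i hi)
    have w3 : ∀ᶠ y in 𝓝 p, x0 ∈ V → ∀ᶠ y' in 𝓝 y, A i1 y' ∈ V := by
      by_cases h : x0 ∈ V
      · have h2 := z8 h
        rw [← hAp] at h2
        filter_upwards [(hAc.eventually h2).eventually_nhds] with y hy _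
        exact hy
      · exact Eventually.of_forall fun y h' => absurd h' h
    filter_upwards [w1, w2, w3] with y y1 y2 y3
    intro o ho
    refine ⟨hf.Xo_contDiffAt o y1.le, ?_⟩
    rcases ht o ho with ⟨rfl, hg⟩ | ⟨i, hi, rfl⟩
    · have h2 : ContDiffAt ℝ ∞ (fun y => em (Fb (A i1 y))) y := by
        have h3 : ContMDiffAt (𝓡 n) 𝓘(ℝ, W) ∞ (em ∘ fun y => Fb (A i1 y)) y :=
          (hf.ret.si _).comp _ (LD.comp_fun (g := Fb) (f := A i1)
            (hf.LDb _ (y3 hg).self_of_nhds) ((hf.cht i1).ld y y1.le)).contMDiffAt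
        exact contMDiffAt_iff_contDiffAt.1 h3
      refine h2.congr_of_eventuallyEq ?_
      filter_upwards [y3 hg] with y' hy'
      show G (A i1 y') = _
      rw [← hGe, hf.Feq r zS _ hy']
    · have hiF : IntegrableOn (fun w => G (A i w)) (closedBall 0 (R i)) := by
        rw [hG]; exact hf.iF i r zS
      exact (Ml_smooth hiF z0).contDiffAt.comp y
        ((hρ i hi) y (y2 i hi)).2.2.1.contDiffAt
  have hsmp := hsm.self_of_nhds
  have hfsm : ∀ᶠ y in 𝓝 p, ContDiffAt ℝ ∞ fs y := by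
    filter_upwards [hsm] with y hy
    rw [hfs]
    exact ContDiffAt.sum fun o ho => (hy o ho).1.smul (hy o ho).2
  have hfsp : ‖fs p - em (F r x)‖ ≤ Or := by
    rw [hfs]
    refine patchN t (fun o => Xo χ o (A i1 p)) (fun o => go G A B R r o (A i1 p))
      (em (F r x)) Or (fun o _ => hf.Xo_nn o _) z5'.self_of_nhds.1 fun o ho => ?_
    rw [hGe]
    rcases ht o ho with ⟨rfl, hg⟩ | ⟨i, hi, rfl⟩
    · show ‖G (A i1 p) - G x‖ ≤ Or
      rw [hAp, sub_self, norm_zero]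
      exact hO0
    · exact hestN i hi
  have hfsδ : ‖fs p - em (F r x)‖ < δ0 := hfsp.trans_lt hOδ
  obtain ⟨T, hT⟩ : ∃ T, T = fderiv ℝ (fun w => em (P w)) (fs p) := ⟨_, rfl⟩
  have hTn := hf.ret.nT _ _ hfsδ
  rw [← hT] at hTn
  -- the functional after the retraction
  have hder : ∀ u : E n, ‖u‖ = 1 → ∃ ℓ : W →L[ℝ] ℝ,
      0 < ℓ (fderiv ℝ (fun y => em (P (fs y))) p u) := by
    intro u hu
    obtain ⟨ℓ, hℓ1, hℓ2⟩ := hcm u hu
    refine ⟨ℓ, ?_⟩
    obtain ⟨ℓ', hℓ'⟩ : ∃ ℓ', ℓ' = ℓ.comp (ContinuousLinearMap.id ℝ W - T) := ⟨_, rfl⟩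
    have hℓ'n : ‖ℓ'‖ ≤ ‖ℓ‖ * Cr := by
      rw [hℓ']
      refine (ContinuousLinearMap.opNorm_comp_le _ _).trans ?_
      gcongr
    obtain ⟨b, hb⟩ : ∃ b : ℝ, b = 2 * Cr * Or * (Hr * r) := ⟨_, rfl⟩
    have hb0 : 0 ≤ b := by rw [hb]; positivity
    have hℓ1' : ∀ q, ‖q - p‖ ≤ κ i1 ^ 2 * r → ‖ℓ‖ * ‖G (A i1 q) - G (A i1 p)‖ ≤ Hr * r := by
      intro q hq
      rw [← hGe, ← hGe]
      exact hℓ1 q hq
    have hℓu : ∀ q, ‖q - p‖ ≤ κ i1 ^ 2 * r → |ℓ (G (A i1 q) - G (A i1 p))| ≤ Hr * r := by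
      intro q hq
      rw [← Real.norm_eq_abs]
      exact (ContinuousLinearMap.le_opNorm _ _).trans (hℓ1' q hq)
    have hℓ'u : ∀ q, ‖q - p‖ ≤ κ i1 ^ 2 * r → |ℓ' (G (A i1 q) - G (A i1 p))| ≤ b := by
      intro q hq
      have h1 := hosc' q hq
      have h2 := hℓ1' q hq
      rw [hℓ', ContinuousLinearMap.comp_apply, ← Real.norm_eq_abs]
      refine (ContinuousLinearMap.le_opNorm _ _).trans ?_
      have h3 := hf.ret.quad (F r x) (F r (A i1 q)) (fs p) hfsδ (by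
        have h4 : ‖G (A i1 q) - G (A i1 p)‖ < δ0 := h1.trans_lt hOδ
        rw [← hGe, ← hGe, hAp] at h4
        exact h4)
      rw [← hT, hGe, hGe] at h3
      rw [hAp] at h1 h2 ⊢
      have hfsp' := hfsp
      rw [hGe] at hfsp'
      calc ‖ℓ‖ * ‖(ContinuousLinearMap.id ℝ W - T) (G (A i1 q) - G x)‖ ≤
            ‖ℓ‖ * (Cr * (‖fs p - G x‖ + ‖G (A i1 q) - G x‖) * ‖G (A i1 q) - G x‖) := by gcongr
        _ = Cr * (‖fs p - G x‖ + ‖G (A i1 q) - G x‖) * (‖ℓ‖ * ‖G (A i1 q) - G x‖) := by ring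
        _ ≤ Cr * (Or + Or) * (Hr * r) := by gcongr
        _ = b := by rw [hb]; ring
    -- the good points
    have hnn : x0 ∈ V →
        1 / 2 ≤ ℓ (fderiv ℝ (fun y => go G A B R r none (A i1 y)) p u) ∧
        |ℓ' (fderiv ℝ (fun y => go G A B R r none (A i1 y)) p u)| ≤
          b / r + 2 * ν * Cn * Cr * (r * Hr) := by
      intro hg
      obtain ⟨c1, c2, c4, c3⟩ := hρn hg
      have hpn : ‖p - B i1 x0‖ < ρn := by linarith
      have hqn : ∀ q, ‖q - p‖ ≤ r → ‖q - B i1 x0‖ < ρn := by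
        intro q hq
        calc ‖q - B i1 x0‖ = ‖(q - p) + (p - B i1 x0)‖ := by congr 1; abel
          _ ≤ ‖q - p‖ + ‖p - B i1 x0‖ := norm_add_le _ _
          _ < ρn := by linarith
      have hFq : ∀ q, ‖q - p‖ ≤ r → em (Fb (A i1 q)) = G (A i1 q) := fun q hq => by
        rw [← hGe, hf.Feq r zS _ (c4 q (hqn q hq))]
      have hFev : (fun y => go G A B R r none (A i1 y)) =ᶠ[𝓝 p]
          fun w => em (Fb (A i1 w)) := by
        have w2 : ∀ᶠ y in 𝓝 p, ‖y - B i1 x0‖ < ρn := by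
          have : Continuous fun q : E n => ‖q - B i1 x0‖ := by fun_prop
          exact (isOpen_lt this continuous_const).mem_nhds hpn
        filter_upwards [w2] with y hy
        show G (A i1 y) = _
        rw [← hGe, hf.Feq r zS _ (c4 y hy)]
      have hpp : ‖p - p‖ ≤ r := by simpa using z0.le
      have hq1 : ‖(p + r • u) - p‖ ≤ r := by
        rw [add_sub_cancel_left, norm_smul, hu, mul_one, Real.norm_of_nonneg z0.le]
      rw [hFev.fderiv_eq]
      refine goodP (h1 := fun w => em (Fb (A i1 w))) (p := p) (u := u) (r := r) (H := Hr)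
        (b := ε i1 * r) (ν := ν) (δ := δ) (C := Cn) (e := b) (CT := Cr) (e' := e)
        (ℓ := ℓ) (ℓ' := ℓ') z0 hu (by linarith) hν0
        hCn0 ?_ (c2 p hpn) c1 ?_ ?_ ?_ hνδ (by linarith) (by linarith) hℓ'n hC0 ?_
      · have h5 := c3 p r hqn _ hq1
        have h6 : ‖(p + r • u) - p‖ = r := by
          rw [add_sub_cancel_left, norm_smul, hu, mul_one, Real.norm_of_nonneg z0.le]
        rw [h6, add_sub_cancel_left] at h5
        exact h5
      · beta_reduce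
        rw [hFq _ hq1, hFq p hpp]
        exact hℓ1' _ (hq1.trans hκr)
      · beta_reduce
        rw [hFq _ hq1, hFq p hpp, ← hGe, ← hGe]
        refine hℓ2 p (p + r • u) ?_ (hq1.trans hκr) r z0.le ?_
        · rw [sub_self, norm_zero]
          positivity
        · rw [add_sub_cancel_left, sub_self, norm_zero]
          positivity
      · have := hf.ε4 i1
        gcongr
      · beta_reduce
        rw [hFq _ hq1, hFq p hpp]
        exact hℓ'u _ (hq1.trans hκr)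
    have hℓ2' : ∀ q q', ‖q - p‖ ≤ κ i1 ^ 2 * r → ‖q' - p‖ ≤ κ i1 ^ 2 * r → ∀ t : ℝ, 0 ≤ t →
        ‖q' - q - t • u‖ ≤ r / Hr → t - ε i1 * r ≤ ℓ (G (A i1 q')) - ℓ (G (A i1 q)) := by
      intro q q' h1 h2 t h3 h4
      rw [← hGe, ← hGe]
      exact hℓ2 q q' h1 h2 t h3 h4
    have hχd : ∀ o ∈ t, DifferentiableAt ℝ (fun y => Xo χ o (A i1 y)) p := fun o ho =>
      (hsmp o ho).1.differentiableAt (by simp)
    have hgd : ∀ o ∈ t, DifferentiableAt ℝ (fun y => go G A B R r o (A i1 y)) p := fun o ho =>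
      (hsmp o ho).2.differentiableAt (by simp)
    have hone : (fun z => ∑ o ∈ t, Xo χ o (A i1 z)) =ᶠ[𝓝 p] fun _ => 1 := by
      filter_upwards [z5'] with y hy
      exact hy.1
    have h1 := patchP t (fun o y => Xo χ o (A i1 y)) (fun o y => go G A B R r o (A i1 y)) p u
      ℓ (G x) (Hr * r) D (1 / 2) hχd hgd (fun o ho => hf.Xo_nn o _) hone
      (by
        intro o ho
        rcases ht o ho with ⟨rfl, hg⟩ | ⟨i, hi, rfl⟩
        · exact (hnn hg).1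
        · exact hest u hu ℓ hℓ2' i hi)
      (by
        intro o ho
        rcases ht o ho with ⟨rfl, hg⟩ | ⟨i, hi, rfl⟩
        · show |ℓ (G (A i1 p) - G x)| ≤ _
          rw [hAp, sub_self, map_zero, abs_zero]
          positivity
        · exact (hestU u hu ℓ (Hr * r) hℓu i hi).2)
      (fun o _ => z6 o) hu hD0
    have h2 := patchU t (fun o y => Xo χ o (A i1 y)) (fun o y => go G A B R r o (A i1 y)) p u
      ℓ' (G x) b D ((κ i1 ^ 2 * C1 n + 1) * (b / r) + 2 * ν * Cn * Cr * (r * Hr))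
      hχd hgd (fun o ho => hf.Xo_nn o _) hone
      (by
        intro o ho
        rcases ht o ho with ⟨rfl, hg⟩ | ⟨i, hi, rfl⟩
        · refine (hnn hg).2.trans ?_
          have : 0 ≤ κ i1 ^ 2 * C1 n * (b / r) := by positivity
          linarith
        · refine (hestU u hu ℓ' b hℓ'u i hi).1.trans ?_
          have h5 : 0 ≤ b / r := by positivity
          have h6 : 0 ≤ 2 * ν * Cn * Cr * (r * Hr) := by positivity
          linarith)
      (by
        intro o ho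
        rcases ht o ho with ⟨rfl, hg⟩ | ⟨i, hi, rfl⟩
        · show |ℓ' (G (A i1 p) - G x)| ≤ _
          rw [hAp, sub_self, map_zero, abs_zero]
          exact hb0
        · exact (hestU u hu ℓ' b hℓ'u i hi).2)
      (fun o _ => z6 o) hu hD0
    have hfd : DifferentiableAt ℝ fs p := hfsm.self_of_nhds.differentiableAt (by simp)
    have hcomp : fderiv ℝ (fun y => em (P (fs y))) p u = T (fderiv ℝ fs p u) := by
      have h3 : fderiv ℝ (fun y => em (P (fs y))) p =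
          (fderiv ℝ (fun w => em (P w)) (fs p)).comp (fderiv ℝ fs p) :=
        fderiv_comp p (hf.ret.diff hfsδ) hfd
      rw [h3, hT]
      rfl
    rw [hcomp]
    have hsplit : ℓ (T (fderiv ℝ fs p u)) = ℓ (fderiv ℝ fs p u) - ℓ' (fderiv ℝ fs p u) := by
      rw [hℓ', ContinuousLinearMap.comp_apply, sub_apply, map_sub]
      simp
    rw [hsplit]
    rw [← hfs] at h1 h2
    have h3 := (abs_le.1 h2).2
    have e1 : (t.card : ℝ) * (D * (Hr * r)) = (t.card * D) * (r * Hr) := by ring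
    have e2 : b / r = 2 * Cr * (Hr * Or) := by
      rw [hb]
      field_simp
    have e3 : (t.card : ℝ) * (D * b) ≤ 1 / 16 := by
      have e4 : (t.card : ℝ) * (D * b) = (t.card * D * (2 * Cr) * (Hr * Or)) * r := by
        rw [hb]
        ring
      rw [e4]
      have e5 : 0 ≤ t.card * D * (2 * Cr) * (Hr * Or) :=
        mul_nonneg (mul_nonneg (mul_nonneg (Nat.cast_nonneg _) hD0) (by linarith))
          (mul_nonneg (by linarith) hO0)
      have e6 : r ≤ 1 := by linarith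
      calc (t.card * D * (2 * Cr) * (Hr * Or)) * r ≤ (t.card * D * (2 * Cr) * (Hr * Or)) * 1 :=
            mul_le_mul_of_nonneg_left e6 e5
        _ ≤ 1 / 16 := by linarith
    have e7 : (κ i1 ^ 2 * C1 n + 1) * (b / r) =
        (κ i1 ^ 2 * C1 n + 1) * (2 * Cr) * (Hr * Or) := by
      rw [e2]
      ring
    rw [e1] at h1
    rw [e7] at h3
    linarith
  have hLDfs : LD n (fun y => P (fs y)) p := by
    refine finishN hf.ret.si ?_ hder
    have hc : ContinuousAt (fun y => ‖fs y - em (F r x)‖) p :=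
      (hfsm.self_of_nhds.continuousAt.sub continuousAt_const).norm
    filter_upwards [hfsm, hc.eventually_lt_const hfsδ] with y y1 y2
    have h2 : ContMDiffAt (𝓡 n) (𝓡 n) ∞ (P ∘ fs) y :=
      (hf.ret.sP _ _ y2).comp y (contMDiffAt_iff_contDiffAt.2 y1)
    exact h2
  have hLDf : LD n (fun y => P (Gr G A B R χ r (A i1 y))) p := by
    refine hLDfs.congr ?_
    filter_upwards [z5'] with y hy
    rw [hfs]
    exact congrArg P hy.2.symm
  have hfin : LD n (fun x' => P (Gr G A B R χ r (A i1 (B i1 x')))) x := by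
    refine LD.comp_fun (g := fun y => P (Gr G A B R χ r (A i1 y))) (f := B i1) ?_
      ((hf.cht i1).ldB hx1)
    rw [← hp]
    exact hLDf
  rw [← hG]
  refine hfin.congr ?_
  filter_upwards [(hf.cht i1).isOpen.mem_nhds hx1] with x' hx'
  rw [(hf.cht i1).right hx']

end

end Pool.Agent.N824.CN
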