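import Pool.Agent.N824.CN.Moll
import Pool.Agent.N824.CR.Local

/-!
# Local estimates for coarsely monotone maps with values in a submanifold
-/

set_option autoImplicit false
set_option maxSynthPendingDepth 3

open Set Filter Topology Metric Function MeasureTheory
open scoped Manifold ContDiff Convolution

set_option linter.unusedSectionVars false

noncomputable section

namespace Pool.Agent.N824.CN

open Pool.Agent.Y522 Pool.Agent.Y954.SH Pool.Agent.N824.CR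

variable {n : ℕ} {W : Type} [NormedAddCommGroup W] [NormedSpace ℝ W] [FiniteDimensional ℝ W]

/-- the derivative of a patched map, formula -/
theorem patchF {ι : Type} (s : Finset ι) (χ : ι → E n → ℝ) (g : ι → E n → W) (p u : E n)
    (ℓ : W →L[ℝ] ℝ) (c : W)
    (hχ : ∀ i ∈ s, DifferentiableAt ℝ (χ i) p) (hg : ∀ i ∈ s, DifferentiableAt ℝ (g i) p)
    (h1 : (fun z => ∑ i ∈ s, χ i z) =ᶠ[𝓝 p] fun _ => 1) :
    ℓ (fderiv ℝ (fun z => ∑ i ∈ s, χ i z • g i z) p u) =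
      (∑ i ∈ s, χ i p * ℓ (fderiv ℝ (g i) p u)) +
      ∑ i ∈ s, fderiv ℝ (χ i) p u * ℓ (g i p - c) := by
  have e2 : ∑ i ∈ s, fderiv ℝ (χ i) p = 0 := by
    have h5 : HasFDerivAt (fun z => ∑ i ∈ s, χ i z) (∑ i ∈ s, fderiv ℝ (χ i) p) p :=
      HasFDerivAt.fun_sum fun i hi => (hχ i hi).hasFDerivAt
    have h6 : HasFDerivAt (fun z => ∑ i ∈ s, χ i z) (0 : E n →L[ℝ] ℝ) p :=
      (hasFDerivAt_const (1 : ℝ) p).congr_of_eventuallyEq h1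
    exact h5.unique h6
  have e2' : ∑ i ∈ s, fderiv ℝ (χ i) p u = 0 := by
    rw [← sum_apply, e2]
    rfl
  have h7 : HasFDerivAt (fun z => ∑ i ∈ s, χ i z • g i z)
      (∑ i ∈ s, (χ i p • fderiv ℝ (g i) p + (fderiv ℝ (χ i) p).smulRight (g i p))) p :=
    HasFDerivAt.fun_sum fun i hi => (hχ i hi).hasFDerivAt.smul (hg i hi).hasFDerivAt
  rw [h7.fderiv, sum_apply, map_sum]
  have e3 : ∑ i ∈ s, fderiv ℝ (χ i) p u * ℓ (g i p - c) =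
      ∑ i ∈ s, fderiv ℝ (χ i) p u * ℓ (g i p) := by
    have : ∑ i ∈ s, fderiv ℝ (χ i) p u * ℓ (g i p - c) =
        ∑ i ∈ s, fderiv ℝ (χ i) p u * ℓ (g i p) - (∑ i ∈ s, fderiv ℝ (χ i) p u) * ℓ c := by
      rw [Finset.sum_mul, ← Finset.sum_sub_distrib]
      refine Finset.sum_congr rfl fun i _ => ?_
      rw [map_sub]
      ring
    rw [this, e2', zero_mul, sub_zero]
  rw [e3, ← Finset.sum_add_distrib]
  refine Finset.sum_congr rfl fun i _ => ?_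
  simp only [add_apply, smul_apply, ContinuousLinearMap.smulRight_apply, map_add, map_smul,
    smul_eq_mul]

theorem patchE {ι : Type} (s : Finset ι) (χ : ι → E n → ℝ) (g : ι → E n → W) (p u : E n)
    (ℓ : W →L[ℝ] ℝ) (c : W) (ζ D : ℝ) (h3 : ∀ i ∈ s, |ℓ (g i p - c)| ≤ ζ)
    (h4 : ∀ i ∈ s, ‖fderiv ℝ (χ i) p‖ ≤ D) (hu : ‖u‖ = 1) (hD : 0 ≤ D) :
    |∑ i ∈ s, fderiv ℝ (χ i) p u * ℓ (g i p - c)| ≤ s.card * (D * ζ) := by
  refine (Finset.abs_sum_le_sum_abs _ _).trans ?_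
  calc ∑ i ∈ s, |fderiv ℝ (χ i) p u * ℓ (g i p - c)| ≤ ∑ i ∈ s, D * ζ := by
        refine Finset.sum_le_sum fun i hi => ?_
        rw [abs_mul]
        refine mul_le_mul ?_ (h3 i hi) (abs_nonneg _) hD
        calc |fderiv ℝ (χ i) p u| ≤ ‖fderiv ℝ (χ i) p‖ * ‖u‖ := by
              rw [← Real.norm_eq_abs]
              exact ContinuousLinearMap.le_opNorm _ _
          _ ≤ D := by rw [hu, mul_one]; exact h4 i hi
    _ = s.card * (D * ζ) := by rw [Finset.sum_const, nsmul_eq_mul]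

/-- lower bound for the derivative of a patched map -/
theorem patchP {ι : Type} (s : Finset ι) (χ : ι → E n → ℝ) (g : ι → E n → W) (p u : E n)
    (ℓ : W →L[ℝ] ℝ) (c : W) (ζ D a : ℝ)
    (hχ : ∀ i ∈ s, DifferentiableAt ℝ (χ i) p) (hg : ∀ i ∈ s, DifferentiableAt ℝ (g i) p)
    (h0 : ∀ i ∈ s, 0 ≤ χ i p) (h1 : (fun z => ∑ i ∈ s, χ i z) =ᶠ[𝓝 p] fun _ => 1)
    (h2 : ∀ i ∈ s, a ≤ ℓ (fderiv ℝ (g i) p u)) (h3 : ∀ i ∈ s, |ℓ (g i p - c)| ≤ ζ)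
    (h4 : ∀ i ∈ s, ‖fderiv ℝ (χ i) p‖ ≤ D) (hu : ‖u‖ = 1) (hD : 0 ≤ D) :
    a - s.card * (D * ζ) ≤ ℓ (fderiv ℝ (fun z => ∑ i ∈ s, χ i z • g i z) p u) := by
  rw [patchF s χ g p u ℓ c hχ hg h1]
  have e1 : ∑ i ∈ s, χ i p = 1 := h1.self_of_nhds
  have h9 : a ≤ ∑ i ∈ s, χ i p * ℓ (fderiv ℝ (g i) p u) := by
    calc a = ∑ i ∈ s, χ i p * a := by rw [← Finset.sum_mul, e1, one_mul]
      _ ≤ _ := Finset.sum_le_sum fun i hi => mul_le_mul_of_nonneg_left (h2 i hi) (h0 i hi)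
  have h11 := (abs_le.1 (patchE s χ g p u ℓ c ζ D h3 h4 hu hD)).1
  linarith

/-- upper bound for the derivative of a patched map -/
theorem patchU {ι : Type} (s : Finset ι) (χ : ι → E n → ℝ) (g : ι → E n → W) (p u : E n)
    (ℓ : W →L[ℝ] ℝ) (c : W) (ζ D a : ℝ)
    (hχ : ∀ i ∈ s, DifferentiableAt ℝ (χ i) p) (hg : ∀ i ∈ s, DifferentiableAt ℝ (g i) p)
    (h0 : ∀ i ∈ s, 0 ≤ χ i p) (h1 : (fun z => ∑ i ∈ s, χ i z) =ᶠ[𝓝 p] fun _ => 1)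
    (h2 : ∀ i ∈ s, |ℓ (fderiv ℝ (g i) p u)| ≤ a) (h3 : ∀ i ∈ s, |ℓ (g i p - c)| ≤ ζ)
    (h4 : ∀ i ∈ s, ‖fderiv ℝ (χ i) p‖ ≤ D) (hu : ‖u‖ = 1) (hD : 0 ≤ D) :
    |ℓ (fderiv ℝ (fun z => ∑ i ∈ s, χ i z • g i z) p u)| ≤ a + s.card * (D * ζ) := by
  rw [patchF s χ g p u ℓ c hχ hg h1]
  have e1 : ∑ i ∈ s, χ i p = 1 := h1.self_of_nhds
  have h9 : |∑ i ∈ s, χ i p * ℓ (fderiv ℝ (g i) p u)| ≤ a := by
    refine (Finset.abs_sum_le_sum_abs _ _).trans ?_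
    calc ∑ i ∈ s, |χ i p * ℓ (fderiv ℝ (g i) p u)| ≤ ∑ i ∈ s, χ i p * a := by
          refine Finset.sum_le_sum fun i hi => ?_
          rw [abs_mul, abs_of_nonneg (h0 i hi)]
          exact mul_le_mul_of_nonneg_left (h2 i hi) (h0 i hi)
      _ = a := by rw [← Finset.sum_mul, e1, one_mul]
  have h11 := patchE s χ g p u ℓ c ζ D h3 h4 hu hD
  exact (abs_add_le _ _).trans (add_le_add h9 h11)

/-- a convex combination is close -/
theorem patchN {ι : Type} (s : Finset ι) (χ : ι → ℝ) (g : ι → W) (c : W) (om : ℝ)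
    (h0 : ∀ i ∈ s, 0 ≤ χ i) (h1 : ∑ i ∈ s, χ i = 1) (h2 : ∀ i ∈ s, ‖g i - c‖ ≤ om) :
    ‖∑ i ∈ s, χ i • g i - c‖ ≤ om := by
  have e1 : ∑ i ∈ s, χ i • g i - c = ∑ i ∈ s, χ i • (g i - c) := by
    simp only [smul_sub, Finset.sum_sub_distrib, ← Finset.sum_smul, h1, one_smul]
  rw [e1]
  refine (norm_sum_le _ _).trans ?_
  calc ∑ i ∈ s, ‖χ i • (g i - c)‖ ≤ ∑ i ∈ s, χ i * om := by
        refine Finset.sum_le_sum fun i hi => ?_
        rw [norm_smul, Real.norm_of_nonneg (h0 i hi)]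
        exact mul_le_mul_of_nonneg_left (h2 i hi) (h0 i hi)
    _ = om := by rw [← Finset.sum_mul, h1, one_mul]

/-- the lower estimate for one patch -/
theorem estP {h1 h2 : E n → W} {φ ψ : E n → E n} {p u w : E n} {r κ ε H R2 : ℝ} {ℓ : W →L[ℝ] ℝ}
    {T : E n →L[ℝ] E n} (hr : 0 < r) (hψφ : ψ (φ p) = p)
    (hh : ∀ s, ‖s - φ p‖ ≤ r → h1 (ψ s) = h2 s)
    (hlip : ∀ s, ‖s - φ p‖ ≤ r → ‖ψ s - ψ (φ p)‖ ≤ κ ^ 2 * ‖s - φ p‖)
    (hT : ∀ s s', ‖s - φ p‖ ≤ r → ‖s' - φ p‖ ≤ r →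
      ‖ψ s' - ψ s - T (s' - s)‖ ≤ r / H)
    (hw : w = fderiv ℝ φ p u) (hTw : T w = u) (hw0 : w ≠ 0)
    (hwn : ‖w‖ ≤ κ ^ 2)
    (hM : ∀ q q', ‖q - p‖ ≤ κ ^ 2 * r → ‖q' - p‖ ≤ κ ^ 2 * r → ∀ t : ℝ, 0 ≤ t →
      ‖q' - q - t • u‖ ≤ r / H → t - ε * r ≤ ℓ (h1 q') - ℓ (h1 q))
    (hcont : IntegrableOn h2 (closedBall 0 R2)) (hR : ‖φ p‖ + r ≤ R2)
    (hφ : DifferentiableAt ℝ φ p) (hε0 : 0 ≤ ε) (hε : C1 n * κ ^ 2 * ε ≤ 1) :
    1 / 2 ≤ ℓ (fderiv ℝ (fun z => Ml n h2 R2 r (φ z)) p u) := by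
  have hball : ∀ s, ‖s - φ p‖ ≤ r → ‖ψ s - p‖ ≤ κ ^ 2 * r := by
    intro s hs
    have h3 := hlip s hs
    rw [hψφ] at h3
    exact h3.trans (by gcongr)
  have e1 : fderiv ℝ (fun z => Ml n h2 R2 r (φ z)) p u = fderiv ℝ (Ml n h2 R2 r) (φ p) w := by
    have hd : DifferentiableAt ℝ (Ml n h2 R2 r) (φ p) :=
      (Ml_smooth hcont hr).contDiffAt.differentiableAt (by simp)
    have h3 : fderiv ℝ (fun z => Ml n h2 R2 r (φ z)) p =
        (fderiv ℝ (Ml n h2 R2 r) (φ p)).comp (fderiv ℝ φ p) := fderiv_comp p hd hφ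
    rw [h3, hw]
    rfl
  rw [e1]
  have h4 := Ml_mono (b := ε * r) ℓ hcont hr hR hw0 (by positivity) (by
    intro s s' hs hs' τ hτ hss
    rw [← hh s hs, ← hh s' hs']
    refine hM (ψ s) (ψ s') (hball s hs) (hball s' hs') τ hτ ?_
    have h5 := hT s s' hs hs'
    rw [hss, map_smul, hTw] at h5
    exact h5)
  refine le_trans ?_ h4
  have h12 : ε * r * ‖w‖ * C1 n / (2 * r) = (C1 n * ‖w‖ * ε) / 2 := by
    field_simp
  rw [h12]
  have h13 : C1 n * ‖w‖ * ε ≤ C1 n * κ ^ 2 * ε := by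
    have := C1_nonneg n
    gcongr
  linarith

/-- the upper estimate for one patch -/
theorem estU {h1 h2 : E n → W} {φ ψ : E n → E n} {p u : E n} {r κ e R2 : ℝ} {ℓ : W →L[ℝ] ℝ}
    (hr : 0 < r) (hψφ : ψ (φ p) = p)
    (hh : ∀ s, ‖s - φ p‖ ≤ r → h1 (ψ s) = h2 s)
    (hlip : ∀ s, ‖s - φ p‖ ≤ r → ‖ψ s - ψ (φ p)‖ ≤ κ ^ 2 * ‖s - φ p‖)
    (hwn : ‖fderiv ℝ φ p u‖ ≤ κ ^ 2)
    (hΛ : ∀ q, ‖q - p‖ ≤ κ ^ 2 * r → |ℓ (h1 q - h1 p)| ≤ e)
    (hcont : IntegrableOn h2 (closedBall 0 R2)) (hR : ‖φ p‖ + r ≤ R2)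
    (hφ : DifferentiableAt ℝ φ p) :
    |ℓ (fderiv ℝ (fun z => Ml n h2 R2 r (φ z)) p u)| ≤ κ ^ 2 * C1 n * (e / r) ∧
      |ℓ (Ml n h2 R2 r (φ p) - h2 (φ p))| ≤ e := by
  have hball : ∀ s, ‖s - φ p‖ ≤ r → ‖ψ s - p‖ ≤ κ ^ 2 * r := by
    intro s hs
    have h3 := hlip s hs
    rw [hψφ] at h3
    exact h3.trans (by gcongr)
  have hrr : ‖φ p - φ p‖ ≤ r := by simpa using hr.le
  have he : 0 ≤ e := by
    have := hΛ (ψ (φ p)) (hball _ hrr)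
    exact (abs_nonneg _).trans this
  have hq : ∀ q, ‖q - φ p‖ ≤ r → |ℓ (h2 q - h2 (φ p))| ≤ e := by
    intro q hq
    rw [← hh q hq, ← hh (φ p) hrr, hψφ]
    exact hΛ (ψ q) (hball q hq)
  constructor
  · have e1 : fderiv ℝ (fun z => Ml n h2 R2 r (φ z)) p u =
        fderiv ℝ (Ml n h2 R2 r) (φ p) (fderiv ℝ φ p u) := by
      have hd : DifferentiableAt ℝ (Ml n h2 R2 r) (φ p) :=
        (Ml_smooth hcont hr).contDiffAt.differentiableAt (by simp)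
      have h3 : fderiv ℝ (fun z => Ml n h2 R2 r (φ z)) p =
          (fderiv ℝ (Ml n h2 R2 r) (φ p)).comp (fderiv ℝ φ p) := fderiv_comp p hd hφ
      rw [h3]
      rfl
    rw [e1]
    refine (Ml_small (fderiv ℝ φ p u) ℓ hcont hr hR hq).trans ?_
    have hC := C1_nonneg n
    calc r⁻¹ * (‖fderiv ℝ φ p u‖ * C1 n * e) ≤ r⁻¹ * (κ ^ 2 * C1 n * e) := by gcongr
      _ = κ ^ 2 * C1 n * (e / r) := by field_simp
  · have h3 := Ml_close (ℓ) (e := e) hcont hr hR (by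
      intro q hq'
      rw [Real.norm_eq_abs]
      exact hq q hq')
    rwa [Real.norm_eq_abs] at h3

/-- closeness in norm for one patch -/
theorem estN {h1 h2 : E n → W} {φ ψ : E n → E n} {p : E n} {r κ om R2 : ℝ}
    (hr : 0 < r) (hψφ : ψ (φ p) = p)
    (hh : ∀ s, ‖s - φ p‖ ≤ r → h1 (ψ s) = h2 s)
    (hlip : ∀ s, ‖s - φ p‖ ≤ r → ‖ψ s - ψ (φ p)‖ ≤ κ ^ 2 * ‖s - φ p‖)
    (hΛ : ∀ q, ‖q - p‖ ≤ κ ^ 2 * r → ‖h1 q - h1 p‖ ≤ om)
    (hcont : IntegrableOn h2 (closedBall 0 R2)) (hR : ‖φ p‖ + r ≤ R2) :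
    ‖Ml n h2 R2 r (φ p) - h2 (φ p)‖ ≤ om := by
  have hrr : ‖φ p - φ p‖ ≤ r := by simpa using hr.le
  have h3 := Ml_close (ContinuousLinearMap.id ℝ W) (e := om) hcont hr hR (by
    intro q hq'
    have h4 := hlip q hq'
    rw [hψφ] at h4
    show ‖h2 q - h2 (φ p)‖ ≤ om
    rw [← hh q hq', ← hh (φ p) hrr, hψφ]
    exact hΛ (ψ q) (h4.trans (by gcongr)))
  exact h3

/-- the derivative at the good points -/
theorem goodP {h1 : E n → W} {p u : E n} {r H b ν δ C e CT : ℝ} {e' : E n →L[ℝ] W}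
    {ℓ ℓ' : W →L[ℝ] ℝ} (hr : 0 < r) (hu : ‖u‖ = 1) (hH0 : 0 ≤ H) (hν : 0 ≤ ν)
    (hC : 0 ≤ C)
    (hs : ‖h1 (p + r • u) - h1 p - fderiv ℝ h1 p (r • u)‖ ≤ C * r * r)
    (hd : ‖fderiv ℝ h1 p - e'‖ ≤ δ) (he : ∀ v, ‖v‖ ≤ ν * ‖e' v‖)
    (hΛ : ‖ℓ‖ * ‖h1 (p + r • u) - h1 p‖ ≤ H * r)
    (hm : r - b ≤ ℓ (h1 (p + r • u)) - ℓ (h1 p)) (hb : b ≤ 1 / 4 * r)
    (hνδ : ν * δ ≤ 1 / 4) (hνC : ν * C * r ≤ 1 / 4) (hνH : 8 * (ν * C * (r * H)) ≤ 1)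
    (hℓ' : ‖ℓ'‖ ≤ ‖ℓ‖ * CT) (hCT : 0 ≤ CT) (he2 : |ℓ' (h1 (p + r • u) - h1 p)| ≤ e) :
    1 / 2 ≤ ℓ (fderiv ℝ h1 p u) ∧
      |ℓ' (fderiv ℝ h1 p u)| ≤ e / r + 2 * ν * C * CT * (r * H) := by
  rw [map_smul] at hs
  obtain ⟨D, hD⟩ : ∃ D, D = fderiv ℝ h1 p u := ⟨_, rfl⟩
  obtain ⟨d, hdd⟩ : ∃ d, d = h1 (p + r • u) - h1 p := ⟨_, rfl⟩
  rw [← hD] at hs ⊢
  rw [← hdd] at hs hΛ he2
  have hm' : r - b ≤ ℓ d := by rw [hdd, map_sub]; exact hm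
  -- the norm of ℓ
  have g1 : ‖e' u‖ - δ ≤ ‖D‖ := by
    have h3 : ‖(fderiv ℝ h1 p - e') u‖ ≤ δ := by
      refine (ContinuousLinearMap.le_opNorm _ _).trans ?_
      rw [hu, mul_one]
      exact hd
    have h4 : e' u = D - (fderiv ℝ h1 p - e') u := by
      rw [hD, sub_apply]
      abel
    have h5 : ‖e' u‖ ≤ ‖D‖ + ‖(fderiv ℝ h1 p - e') u‖ := by
      conv_lhs => rw [h4]
      exact norm_sub_le _ _
    linarith
  have g2 : r * ‖D‖ ≤ ‖d‖ + C * r * r := by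
    have h4 : r • D = d - (d - r • D) := by abel
    have h5 : ‖r • D‖ ≤ ‖d‖ + ‖d - r • D‖ := by
      conv_lhs => rw [h4]
      exact norm_sub_le _ _
    rw [norm_smul, Real.norm_of_nonneg hr.le] at h5
    linarith
  have g3 : (1 : ℝ) ≤ ν * ‖e' u‖ := by
    have := he u
    rwa [hu] at this
  have g4 : r * (1 / 2) ≤ ν * ‖d‖ := by
    have h6 : r * (ν * ‖e' u‖ - ν * δ) ≤ ν * ‖d‖ + ν * C * r * r := by
      calc r * (ν * ‖e' u‖ - ν * δ) = ν * (r * (‖e' u‖ - δ)) := by ring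
        _ ≤ ν * (r * ‖D‖) := by gcongr
        _ ≤ ν * (‖d‖ + C * r * r) := by gcongr
        _ = _ := by ring
    have h7 : r * (1 - 1 / 4) ≤ r * (ν * ‖e' u‖ - ν * δ) := by
      gcongr
    have h8 : ν * C * r * r ≤ 1 / 4 * r := by gcongr
    linarith
  have hℓ : ‖ℓ‖ ≤ 2 * (H * ν) := by
    have h6 : r * (‖ℓ‖ * (1 / 2)) ≤ r * (H * ν) := by
      calc r * (‖ℓ‖ * (1 / 2)) = ‖ℓ‖ * (r * (1 / 2)) := by ring
        _ ≤ ‖ℓ‖ * (ν * ‖d‖) := by gcongr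
        _ = ν * (‖ℓ‖ * ‖d‖) := by ring
        _ ≤ ν * (H * r) := by gcongr
        _ = r * (H * ν) := by ring
    have h7 := le_of_mul_le_mul_left h6 hr
    linarith
  constructor
  · have a3 : r * ℓ D = ℓ d - ℓ (d - r • D) := by
      rw [map_sub, map_smul, smul_eq_mul]
      ring
    have a4 : |ℓ (d - r • D)| ≤ 1 / 4 * r := by
      rw [← Real.norm_eq_abs]
      refine (ContinuousLinearMap.le_opNorm _ _).trans ?_
      calc ‖ℓ‖ * ‖d - r • D‖ ≤ 2 * (H * ν) * (C * r * r) := by gcongr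
        _ = (8 * (ν * C * (r * H))) / 4 * r := by ring
        _ ≤ 1 / 4 * r := by gcongr
    have a6 := (abs_le.1 a4).2
    have a5 : r * (1 / 2) ≤ r * ℓ D := by linarith
    exact le_of_mul_le_mul_left a5 hr
  · have a3 : r * ℓ' D = ℓ' d - ℓ' (d - r • D) := by
      rw [map_sub, map_smul, smul_eq_mul]
      ring
    have a4 : |ℓ' (d - r • D)| ≤ 2 * (H * ν) * CT * (C * r * r) := by
      rw [← Real.norm_eq_abs]
      refine (ContinuousLinearMap.le_opNorm _ _).trans ?_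
      gcongr
      exact hℓ'.trans (by gcongr)
    have a5 : r * |ℓ' D| ≤ r * (e / r + 2 * ν * C * CT * (r * H)) := by
      have h9 : r * |ℓ' D| = |r * ℓ' D| := by rw [abs_mul, abs_of_pos hr]
      rw [h9, a3]
      refine (abs_sub _ _).trans ?_
      have h10 : r * (e / r + 2 * ν * C * CT * (r * H)) =
          e + 2 * (H * ν) * CT * (C * r * r) := by
        field_simp
      rw [h10]
      exact add_le_add he2 a4
    exact le_of_mul_le_mul_left a5 hr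

/-- quadratic estimate -/
theorem quad_ballW {f : E n → W} {p0 : E n} (hf : ContDiffAt ℝ ∞ f p0) {δ : ℝ} (hδ : 0 < δ) :
    ∃ ρ C : ℝ, 0 < ρ ∧ 0 ≤ C ∧
      (∀ p, ‖p - p0‖ < ρ → ‖fderiv ℝ f p - fderiv ℝ f p0‖ ≤ δ) ∧
      ∀ p r, (∀ q, ‖q - p‖ ≤ r → ‖q - p0‖ < ρ) →
      ∀ q, ‖q - p‖ ≤ r → ‖f q - f p - fderiv ℝ f p (q - p)‖ ≤ C * r * ‖q - p‖ := by
  have h1' : ContDiffAt ℝ ∞ (fderiv ℝ f) p0 := hf.fderiv_right (m := ∞) (by simp)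
  have h1 : ContDiffAt ℝ 1 (fderiv ℝ f) p0 := h1'.of_le (by simp)
  obtain ⟨K, t, ht, hK⟩ := h1.exists_lipschitzOnWith
  have h2 : ∀ᶠ y in 𝓝 p0, DifferentiableAt ℝ f y := by
    have h3 : ContDiffAt ℝ 1 f p0 := hf.of_le (by simp)
    filter_upwards [h3.eventually (by simp)] with y hy
    exact hy.differentiableAt (by simp)
  have h4 : ∀ᶠ y in 𝓝 p0, ‖fderiv ℝ f y - fderiv ℝ f p0‖ < δ := by
    have h5 : Tendsto (fun y => ‖fderiv ℝ f y - fderiv ℝ f p0‖) (𝓝 p0)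
        (𝓝 ‖fderiv ℝ f p0 - fderiv ℝ f p0‖) := (h1'.continuousAt.sub continuousAt_const).norm
    rw [sub_self, norm_zero] at h5
    exact h5.eventually_lt_const hδ
  obtain ⟨ρ, hρ, hb⟩ := Metric.mem_nhds_iff.1 (Filter.inter_mem (Filter.inter_mem ht h2) h4)
  have hb' : ∀ p, ‖p - p0‖ < ρ → (p ∈ t ∧ DifferentiableAt ℝ f p) ∧
      ‖fderiv ℝ f p - fderiv ℝ f p0‖ < δ := by
    intro p hp
    exact hb (by rwa [mem_ball, dist_eq_norm])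
  refine ⟨ρ, K, hρ, K.coe_nonneg, fun p hp => (hb' p hp).2.le, ?_⟩
  intro p r hpr q hq
  have hr : 0 ≤ r := (norm_nonneg _).trans hq
  have hconv : Convex ℝ (closedBall p r) := convex_closedBall p r
  have hmem : ∀ z, z ∈ closedBall p r ↔ ‖z - p‖ ≤ r := fun z => by
    rw [mem_closedBall, dist_eq_norm]
  refine hconv.norm_image_sub_le_of_norm_hasFDerivWithin_le'
    (f' := fun z => fderiv ℝ f z) (fun z hz => ?_) (fun z hz => ?_)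
    ((hmem p).2 (by simpa using hr)) ((hmem q).2 hq)
  · exact (hb' z (hpr z ((hmem z).1 hz))).1.2.hasFDerivAt.hasFDerivWithinAt
  · have h4 := hK.norm_sub_le (hb' z (hpr z ((hmem z).1 hz))).1.1
      (hb' p (hpr p (by simpa using hr))).1.1
    refine h4.trans ?_
    have := (hmem z).1 hz
    gcongr

/-- invertibility of the derivative -/
theorem finishN {N : Type} [TopologicalSpace N] [ChartedSpace (E n) N] [IsManifold (𝓡 n) ∞ N]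
    {i : N → W} (hi : ContMDiff (𝓡 n) 𝓘(ℝ, W) ∞ i) {f : E n → N} {p : E n}
    (hf : ∀ᶠ y in 𝓝 p, ContMDiffAt (𝓡 n) (𝓡 n) ∞ f y)
    (h : ∀ u : E n, ‖u‖ = 1 → ∃ ℓ : W →L[ℝ] ℝ, 0 < ℓ (fderiv ℝ (fun y => i (f y)) p u)) :
    LD n f p := by
  obtain ⟨c, hc⟩ : ∃ c, c = chartAt (E n) (f p) := ⟨_, rfl⟩
  have hcs : f p ∈ c.source := by rw [hc]; exact mem_chart_source _ _
  have hc1 : ContMDiffOn (𝓡 n) (𝓡 n) ∞ c c.source := by
    rw [hc]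
    exact contMDiffOn_chart
  have hc2 : ContMDiffOn (𝓡 n) (𝓡 n) ∞ c.symm c.target := by
    rw [hc]
    exact contMDiffOn_chart_symm
  have hfc : ContinuousAt f p := hf.self_of_nhds.continuousAt
  have hev : ∀ᶠ y in 𝓝 p, f y ∈ c.source := hfc.preimage_mem_nhds (c.open_source.mem_nhds hcs)
  have hg : ∀ᶠ y in 𝓝 p, ContDiffAt ℝ ∞ (fun z => c (f z)) y := by
    filter_upwards [hf, hev] with y y1 y2
    have h2 : ContMDiffAt (𝓡 n) (𝓡 n) ∞ (c ∘ f) y :=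
      ((hc1 (f y) y2).contMDiffAt (c.open_source.mem_nhds y2)).comp y y1
    exact contMDiffAt_iff_contDiffAt.1 h2
  have hgp := hg.self_of_nhds
  have hcfp : c (f p) ∈ c.target := c.map_source hcs
  have hi2 : ContDiffAt ℝ ∞ (fun z => i (c.symm z)) (c (f p)) := by
    have h2 : ContMDiffAt (𝓡 n) 𝓘(ℝ, W) ∞ (i ∘ c.symm) (c (f p)) :=
      (hi _).comp _ ((hc2 _ hcfp).contMDiffAt (c.open_target.mem_nhds hcfp))
    exact contMDiffAt_iff_contDiffAt.1 h2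
  have hcomp : fderiv ℝ (fun y => i (f y)) p =
      (fderiv ℝ (fun z => i (c.symm z)) (c (f p))).comp (fderiv ℝ (fun z => c (f z)) p) := by
    have h3 := fderiv_comp p (hi2.differentiableAt (by simp)) (hgp.differentiableAt (by simp))
    rw [← h3]
    refine Filter.EventuallyEq.fderiv_eq ?_
    filter_upwards [hev] with y hy
    show i (f y) = i (c.symm (c (f y)))
    rw [c.left_inv hy]
  have hLg : LD n (fun z => c (f z)) p := by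
    refine Pool.Agent.N824.CR.finishP hg fun u hu => ?_
    obtain ⟨ℓ, hℓ⟩ := h u hu
    rw [hcomp] at hℓ
    exact ⟨ℓ.comp (fderiv ℝ (fun z => i (c.symm z)) (c (f p))), hℓ⟩
  have hLc : LD n (fun z => c.symm z) (c (f p)) :=
    ⟨{ toPartialEquiv := c.symm.toPartialEquiv
       open_source := c.symm.open_source
       open_target := c.symm.open_target
       contMDiffOn_toFun := hc2
       contMDiffOn_invFun := hc1 }, hcfp, fun _ _ => rfl⟩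
  refine (LD.comp_fun (g := fun z => c.symm z) (f := fun z => c (f z)) hLc hLg).congr ?_
  filter_upwards [hev] with y hy
  exact (c.left_inv hy).symm

end Pool.Agent.N824.CN
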