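import Pool.Agent.N824.CR.Moll

/-!
# Mollification of coarsely monotone maps with values in a normed space
-/

set_option autoImplicit false
set_option maxSynthPendingDepth 3

open Set Filter Topology Metric Function MeasureTheory
open scoped Manifold ContDiff Convolution InnerProductSpace

set_option linter.unusedSectionVars false

noncomputable section

namespace Pool.Agent.N824.CN

open Pool.Agent.Y522 Pool.Agent.Y954.SH Pool.Agent.N824.CR

variable {n : ℕ} {W : Type} [NormedAddCommGroup W] [NormedSpace ℝ W] [FiniteDimensional ℝ W]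

/-- multiplication by scalars -/
def LW (W : Type) [NormedAddCommGroup W] [NormedSpace ℝ W] : W →L[ℝ] ℝ →L[ℝ] W :=
  (ContinuousLinearMap.lsmul ℝ ℝ).flip

omit [FiniteDimensional ℝ W] in
lemma LW_apply (v : W) (a : ℝ) : LW W v a = a • v := by
  simp [LW]

/-- `G` cut off outside `closedBall 0 R`, in the scale `r` -/
def kk (n : ℕ) (G : E n → W) (R r : ℝ) (y : E n) : W :=
  (closedBall (0 : E n) R).indicator G (r • y)

lemma kk_int {G : E n → W} {R r : ℝ} (hG : IntegrableOn G (closedBall 0 R)) (hr : 0 < r) :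
    Integrable (kk n G R r) := by
  have h1 : Integrable ((closedBall (0 : E n) R).indicator G) := by
    rwa [integrable_indicator_iff measurableSet_closedBall]
  exact h1.comp_smul hr.ne'

/-- mollification at the fixed scale `r` of `G` cut off outside `closedBall 0 R` -/
def Ml (n : ℕ) (G : E n → W) (R r : ℝ) (z : E n) : W :=
  (kk n G R r ⋆[LW W, volume] K n) (r⁻¹ • z)

lemma Ml_smooth {G : E n → W} {R r : ℝ} (hG : IntegrableOn G (closedBall 0 R)) (hr : 0 < r) :
    ContDiff ℝ ∞ (Ml n G R r) := by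
  have h1 : ContDiff ℝ ∞ (kk n G R r ⋆[LW W, volume] K n) :=
    HasCompactSupport.contDiff_convolution_right (n := ⊤) (LW W) K_cpt
      (kk_int hG hr).locallyIntegrable K_smooth
  exact h1.comp (contDiff_const_smul r⁻¹)

lemma kk_eq {G : E n → W} {R r : ℝ} {p t : E n} (hr : 0 < r) (hp : ‖p‖ + r ≤ R)
    (ht : ‖t‖ ≤ 1) : kk n G R r (r⁻¹ • p - t) = G (p - r • t) := by
  unfold kk
  have h1 : r • (r⁻¹ • p - t) = p - r • t := by
    rw [smul_sub, smul_smul, mul_inv_cancel₀ hr.ne', one_smul]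
  rw [h1, indicator_of_mem]
  rw [mem_closedBall_zero_iff]
  calc ‖p - r • t‖ ≤ ‖p‖ + ‖r • t‖ := norm_sub_le _ _
    _ = ‖p‖ + r * ‖t‖ := by rw [norm_smul, Real.norm_of_nonneg hr.le]
    _ ≤ R := by nlinarith

/-- the derivative of the mollification -/
lemma Ml_d {G : E n → W} {R r : ℝ} {p w : E n} (ℓ : W →L[ℝ] ℝ)
    (hG : IntegrableOn G (closedBall 0 R)) (hr : 0 < r) :
    ℓ (fderiv ℝ (Ml n G R r) p w) =
      r⁻¹ * ∫ t, fderiv ℝ (K n) t w * ℓ (kk n G R r (r⁻¹ • p - t)) := by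
  have hki := kk_int hG hr
  have hk := hki.locallyIntegrable
  have h1 := HasCompactSupport.hasFDerivAt_convolution_right (LW W) (K_cpt (n := n)) hk
    (K_smooth.of_le (by simp)) (r⁻¹ • p)
  have h2 : HasFDerivAt (Ml n G R r)
      ((((kk n G R r) ⋆[(LW W).precompR (E n), volume] fderiv ℝ (K n)) (r⁻¹ • p)).comp
        (r⁻¹ • ContinuousLinearMap.id ℝ (E n))) p := by
    have h3 : HasFDerivAt (fun z : E n => r⁻¹ • z) (r⁻¹ • ContinuousLinearMap.id ℝ (E n)) p :=
      (hasFDerivAt_id p).const_smul r⁻¹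
    exact h1.comp p h3
  rw [h2.fderiv]
  have h4 : ((((kk n G R r) ⋆[(LW W).precompR (E n), volume] fderiv ℝ (K n)) (r⁻¹ • p)).comp
        (r⁻¹ • ContinuousLinearMap.id ℝ (E n))) w =
      r⁻¹ • (((kk n G R r) ⋆[(LW W).precompR (E n), volume] fderiv ℝ (K n)) (r⁻¹ • p)) w := by
    simp
  rw [h4, convolution_precompR_apply (LW W) hk (K_cpt.fderiv ℝ) K_d_cont, convolution_eq_swap,
    map_smul, smul_eq_mul]
  congr 1
  have hint : Integrable (fun t => (LW W) (kk n G R r (r⁻¹ • p - t)) (fderiv ℝ (K n) t w)) := by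
    have h5 : ConvolutionExistsAt (fun a => fderiv ℝ (K n) a w) (kk n G R r) (r⁻¹ • p)
        (LW W).flip volume := by
      have h6 : HasCompactSupport (fun a => fderiv ℝ (K n) a w) :=
        K_cpt.fderiv_apply ℝ w
      have h7 : Continuous (fun a => fderiv ℝ (K n) a w) := K_d_cont.clm_apply continuous_const
      exact (h6.convolutionExists_left _ h7 hk) _
    exact h5
  rw [← ContinuousLinearMap.integral_comp_comm ℓ hint]
  refine integral_congr_ae (Eventually.of_forall fun t => ?_)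
  show ℓ ((LW W) (kk n G R r (r⁻¹ • p - t)) (fderiv ℝ (K n) t w)) = _
  rw [LW_apply, map_smul, smul_eq_mul]

/-- lower bound for the derivative of the mollification in a direction of coarse monotonicity -/
theorem Ml_mono {G : E n → W} {R r b : ℝ} {p w : E n} (ℓ : W →L[ℝ] ℝ)
    (hG : IntegrableOn G (closedBall 0 R)) (hr : 0 < r) (hp : ‖p‖ + r ≤ R) (hw : w ≠ 0)
    (hb : 0 ≤ b)
    (h : ∀ s s' : E n, ‖s - p‖ ≤ r → ‖s' - p‖ ≤ r → ∀ τ : ℝ, 0 ≤ τ → s' - s = τ • w →
      τ - b ≤ ℓ (G s') - ℓ (G s)) :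
    1 - b * ‖w‖ * C1 n / (2 * r) ≤ ℓ (fderiv ℝ (Ml n G R r) p w) := by
  rw [Ml_d ℓ hG hr]
  obtain ⟨g, hg⟩ : ∃ g : E n → ℝ, g = fun t => ℓ (kk n G R r (r⁻¹ • p - t)) := ⟨_, rfl⟩
  have hwn : 0 < ‖w‖ ^ 2 := by
    have : 0 < ‖w‖ := norm_pos_iff.2 hw
    positivity
  have hgi : Integrable g := by
    rw [hg]
    exact ℓ.integrable_comp ((kk_int hG hr).comp_sub_left (r⁻¹ • p))
  have hKd : Continuous (fun t : E n => fderiv ℝ (K n) t w) := K_d_cont.clm_apply continuous_const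
  obtain ⟨Cb, hCb⟩ : ∃ Cb : ℝ, ∀ t : E n, ‖fderiv ℝ (K n) t w‖ ≤ Cb :=
    (K_cpt.fderiv_apply ℝ w).exists_bound_of_continuous hKd
  have hi1 : Integrable fun t => fderiv ℝ (K n) t w * g t :=
    hgi.bdd_mul (c := Cb) hKd.aestronglyMeasurable (Eventually.of_forall hCb)
  have hgr : Integrable fun t => g (rf w t) := by
    have h1 := ((ℝ ∙ w)ᗮ.reflection : E n ≃ₗᵢ[ℝ] E n).measurePreserving
    have h2 : Integrable (g ∘ ((ℝ ∙ w)ᗮ.reflection : E n ≃ₗᵢ[ℝ] E n)) :=
      (h1.integrable_comp_emb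
        ((ℝ ∙ w)ᗮ.reflection : E n ≃ₗᵢ[ℝ] E n).toHomeomorph.measurableEmbedding).2 hgi
    convert h2 using 1
    funext t
    rw [rf_eq]
    rfl
  have hi2 : Integrable fun t => fderiv ℝ (K n) t w * g (rf w t) :=
    hgr.bdd_mul (c := Cb) hKd.aestronglyMeasurable (Eventually.of_forall hCb)
  have e1 : ∫ t, fderiv ℝ (K n) t w * g t = -∫ t, fderiv ℝ (K n) t w * g (rf w t) := by
    rw [← integral_rf w, ← integral_neg]
    refine integral_congr_ae (Eventually.of_forall fun t => ?_)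
    simp only [K_d_rf]
    ring
  have e2 : ∫ t, fderiv ℝ (K n) t w * g t =
      (1 / 2) * ∫ t, fderiv ℝ (K n) t w * (g t - g (rf w t)) := by
    have : ∫ t, fderiv ℝ (K n) t w * (g t - g (rf w t)) =
        (∫ t, fderiv ℝ (K n) t w * g t) - ∫ t, fderiv ℝ (K n) t w * g (rf w t) := by
      rw [← integral_sub hi1 hi2]
      refine integral_congr_ae (Eventually.of_forall fun t => ?_)
      show _ = _ - _
      ring
    rw [this, e1]
    linarith [e1]
  have hlow : ∀ t, (2 * r / ‖w‖ ^ 2) * (-(fderiv ℝ (K n) t w * ⟪w, t⟫_ℝ)) -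
      b * (‖w‖ * ‖fderiv ℝ (K n) t‖) ≤ fderiv ℝ (K n) t w * (g t - g (rf w t)) := by
    intro t
    rcases le_or_gt ‖t‖ 1 with ht | ht
    · obtain ⟨c, hc0, hc⟩ := K_d_apply t
      have hcw := hc w
      have hinn : ⟪t, w⟫_ℝ = ⟪w, t⟫_ℝ := real_inner_comm _ _
      rw [hinn] at hcw
      have gt : g t = ℓ (G (p - r • t)) := by rw [hg]; simp only; rw [kk_eq hr hp ht]
      have grt : g (rf w t) = ℓ (G (p - r • rf w t)) := by
        rw [hg]; simp only; rw [kk_eq hr hp (by rw [norm_rf]; exact ht)]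
      have n1 : ‖p - r • t - p‖ ≤ r := by
        rw [sub_sub_cancel_left, norm_neg, norm_smul, Real.norm_of_nonneg hr.le]
        nlinarith
      have n2 : ‖p - r • rf w t - p‖ ≤ r := by
        rw [sub_sub_cancel_left, norm_neg, norm_smul, Real.norm_of_nonneg hr.le, norm_rf]
        nlinarith
      have e3 : p - r • rf w t - (p - r • t) = (2 * r * ⟪w, t⟫_ℝ / ‖w‖ ^ 2) • w := by
        unfold rf
        rw [smul_sub, smul_smul]
        have : r * (2 * (⟪w, t⟫_ℝ / ‖w‖ ^ 2)) = 2 * r * ⟪w, t⟫_ℝ / ‖w‖ ^ 2 := by ring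
        rw [this]
        abel
      have hop : |fderiv ℝ (K n) t w| ≤ ‖w‖ * ‖fderiv ℝ (K n) t‖ := by
        rw [← Real.norm_eq_abs, mul_comm]
        exact ContinuousLinearMap.le_opNorm _ _
      obtain ⟨a, ha⟩ : ∃ a, a = ⟪w, t⟫_ℝ := ⟨_, rfl⟩
      obtain ⟨W, hW⟩ : ∃ W, W = ‖w‖ * ‖fderiv ℝ (K n) t‖ := ⟨_, rfl⟩
      rw [← hW] at hop ⊢
      rw [← ha] at hcw e3 ⊢
      rw [hcw] at hop ⊢
      rw [gt, grt]
      rcases le_total 0 a with h0 | h0
      · have hm := h (p - r • t) (p - r • rf w t) n1 n2 (2 * r * a / ‖w‖ ^ 2) (by positivity) e3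
        rw [abs_neg, abs_of_nonneg (mul_nonneg hc0 h0)] at hop
        have h5 : c * a * (2 * r * a / ‖w‖ ^ 2 - b) ≤
            c * a * (ℓ (G (p - r • rf w t)) - ℓ (G (p - r • t))) :=
          mul_le_mul_of_nonneg_left hm (mul_nonneg hc0 h0)
        have h6 : b * (c * a) ≤ b * W := mul_le_mul_of_nonneg_left hop hb
        have h7 : c * a * (2 * r * a / ‖w‖ ^ 2 - b) =
            2 * r / ‖w‖ ^ 2 * (c * a * a) - b * (c * a) := by ring
        have h8 : 2 * r / ‖w‖ ^ 2 * (-(-(c * a) * a)) = 2 * r / ‖w‖ ^ 2 * (c * a * a) := by ring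
        rw [h8]
        linarith
      · have e4 : p - r • t - (p - r • rf w t) = (-(2 * r * a / ‖w‖ ^ 2)) • w := by
          rw [neg_smul, ← e3]
          abel
        have hm := h (p - r • rf w t) (p - r • t) n2 n1 (-(2 * r * a / ‖w‖ ^ 2)) (by
          rw [neg_nonneg]
          exact div_nonpos_of_nonpos_of_nonneg (by nlinarith) hwn.le) e4
        have hca : c * a ≤ 0 := mul_nonpos_of_nonneg_of_nonpos hc0 h0
        rw [abs_neg, abs_of_nonpos hca] at hop
        have h5 : -(c * a) * (-(2 * r * a / ‖w‖ ^ 2) - b) ≤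
            -(c * a) * (ℓ (G (p - r • t)) - ℓ (G (p - r • rf w t))) :=
          mul_le_mul_of_nonneg_left hm (by linarith)
        have h6 : b * (-(c * a)) ≤ b * W := mul_le_mul_of_nonneg_left hop hb
        have h7 : -(c * a) * (-(2 * r * a / ‖w‖ ^ 2) - b) =
            2 * r / ‖w‖ ^ 2 * (c * a * a) - b * (-(c * a)) := by ring
        have h8 : 2 * r / ‖w‖ ^ 2 * (-(-(c * a) * a)) = 2 * r / ‖w‖ ^ 2 * (c * a * a) := by ring
        rw [h8]
        linarith
    · rw [K_d_zero ht]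
      simp
  have hin : Integrable fun t : E n => -(fderiv ℝ (K n) t w * ⟪w, t⟫_ℝ) := by
    have hc : Continuous (fun t : E n => ⟪w, t⟫_ℝ) := (innerSL ℝ w).continuous
    exact ((hKd.mul hc).integrable_of_hasCompactSupport
      ((K_cpt.fderiv_apply ℝ w).mul_right)).neg
  have hin2 : Integrable fun t : E n => ‖fderiv ℝ (K n) t‖ := K_d_integrable.norm
  have hmono : ∫ t, ((2 * r / ‖w‖ ^ 2) * (-(fderiv ℝ (K n) t w * ⟪w, t⟫_ℝ)) -
      b * (‖w‖ * ‖fderiv ℝ (K n) t‖)) ≤ ∫ t, fderiv ℝ (K n) t w * (g t - g (rf w t)) := by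
    refine integral_mono ((hin.const_mul _).sub ((hin2.const_mul _).const_mul _)) ?_ hlow
    have := hi1.sub hi2
    refine this.congr (Eventually.of_forall fun t => ?_)
    show fderiv ℝ (K n) t w * g t - fderiv ℝ (K n) t w * g (rf w t) = _
    ring
  have e5 : ∫ t, ((2 * r / ‖w‖ ^ 2) * (-(fderiv ℝ (K n) t w * ⟪w, t⟫_ℝ)) -
      b * (‖w‖ * ‖fderiv ℝ (K n) t‖)) = 2 * r - b * (‖w‖ * C1 n) := by
    rw [integral_sub (hin.const_mul _) ((hin2.const_mul _).const_mul _), integral_const_mul,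
      integral_neg, K_d_inner, integral_const_mul, integral_const_mul, neg_neg]
    unfold C1
    field_simp
  rw [e5] at hmono
  have e6 : ∫ t, fderiv ℝ (K n) t w * ℓ (kk n G R r (r⁻¹ • p - t)) =
      ∫ t, fderiv ℝ (K n) t w * g t := by rw [hg]
  rw [e6, e2]
  have h9 : r⁻¹ * ((1 / 2) * (2 * r - b * (‖w‖ * C1 n))) ≤
      r⁻¹ * ((1 / 2) * ∫ t, fderiv ℝ (K n) t w * (g t - g (rf w t))) := by
    have : 0 ≤ r⁻¹ := inv_nonneg.2 hr.le
    gcongr
  refine le_trans (le_of_eq ?_) h9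
  field_simp

/-- the mollification is close -/
theorem Ml_close {V : Type*} [NormedAddCommGroup V] [NormedSpace ℝ V] [CompleteSpace V]
    (ℓ : W →L[ℝ] V) {G : E n → W} {R r e : ℝ} {p : E n}
    (hG : IntegrableOn G (closedBall 0 R)) (hr : 0 < r) (hp : ‖p‖ + r ≤ R)
    (h : ∀ q, ‖q - p‖ ≤ r → ‖ℓ (G q - G p)‖ ≤ e) :
    ‖ℓ (Ml n G R r p - G p)‖ ≤ e := by
  have he : 0 ≤ e := by
    have := h p (by simpa using hr.le)
    simpa using this
  have hk := (kk_int hG hr).locallyIntegrable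
  have hki : Integrable (K n) := K_integrable
  have hc1 : ConvolutionExistsAt (K n) (kk n G R r) (r⁻¹ • p) (LW W).flip volume :=
      (K_cpt.convolutionExists_left _ K_smooth.continuous hk) _
  have hc1' : Integrable (fun t => K n t • kk n G R r (r⁻¹ • p - t)) := by
    refine hc1.congr (Eventually.of_forall fun t => ?_)
    show (LW W) (kk n G R r (r⁻¹ • p - t)) (K n t) = _
    rw [LW_apply]
  have h1 : G p = ∫ t, K n t • G p := by
    rw [integral_smul_const, K_int, one_smul]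
  have h2 : Ml n G R r p - G p = ∫ t, K n t • (kk n G R r (r⁻¹ • p - t) - G p) := by
    unfold Ml
    rw [convolution_eq_swap]
    simp only [LW_apply]
    conv_lhs => rw [h1]
    rw [← integral_sub hc1' (hki.smul_const _)]
    refine integral_congr_ae (Eventually.of_forall fun t => ?_)
    simp only [smul_sub]
  have hint : Integrable (fun t => K n t • (kk n G R r (r⁻¹ • p - t) - G p)) := by
    refine (hc1'.sub (hki.smul_const (G p))).congr (Eventually.of_forall fun t => ?_)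
    simp only [Pi.sub_apply, smul_sub]
  rw [h2, ← ContinuousLinearMap.integral_comp_comm ℓ hint]
  have hb : Integrable (fun t => e * K n t) := hki.const_mul _
  refine (norm_integral_le_of_norm_le hb (Eventually.of_forall fun t => ?_)).trans ?_
  · rw [map_smul, norm_smul, Real.norm_of_nonneg (K_nonneg _), mul_comm]
    rcases le_or_gt ‖t‖ 1 with ht | ht
    · rw [kk_eq hr hp ht]
      refine mul_le_mul_of_nonneg_right (h _ ?_) (K_nonneg _)
      rw [sub_sub_cancel_left, norm_neg, norm_smul, Real.norm_of_nonneg hr.le]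
      nlinarith
    · rw [K_zero ht.le]
      simp
  · rw [integral_const_mul, K_int, mul_one]

lemma K_d_int (w : E n) : ∫ t, fderiv ℝ (K n) t w = 0 := by
  have h : ∫ t, fderiv ℝ (K n) t w = -∫ t, fderiv ℝ (K n) t w := by
    conv_lhs => rw [← integral_rf w]
    rw [← integral_neg]
    refine integral_congr_ae (Eventually.of_forall fun t => ?_)
    simp only [K_d_rf]
  linarith

/-- upper bound for the derivative of the mollification in terms of the oscillation -/
theorem Ml_small {G : E n → W} {R r e : ℝ} {p : E n} (w : E n) (ℓ : W →L[ℝ] ℝ)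
    (hG : IntegrableOn G (closedBall 0 R)) (hr : 0 < r) (hp : ‖p‖ + r ≤ R)
    (h : ∀ q, ‖q - p‖ ≤ r → |ℓ (G q - G p)| ≤ e) :
    |ℓ (fderiv ℝ (Ml n G R r) p w)| ≤ r⁻¹ * (‖w‖ * C1 n * e) := by
  rw [Ml_d ℓ hG hr, abs_mul, abs_of_pos (inv_pos.2 hr)]
  refine mul_le_mul_of_nonneg_left ?_ (inv_nonneg.2 hr.le)
  have hKd : Continuous (fun t : E n => fderiv ℝ (K n) t w) := K_d_cont.clm_apply continuous_const
  obtain ⟨Cb, hCb⟩ : ∃ Cb : ℝ, ∀ t : E n, ‖fderiv ℝ (K n) t w‖ ≤ Cb :=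
    (K_cpt.fderiv_apply ℝ w).exists_bound_of_continuous hKd
  have hgi : Integrable (fun t => ℓ (kk n G R r (r⁻¹ • p - t))) :=
    ℓ.integrable_comp ((kk_int hG hr).comp_sub_left (r⁻¹ • p))
  have hi1 : Integrable fun t => fderiv ℝ (K n) t w * ℓ (kk n G R r (r⁻¹ • p - t)) :=
    hgi.bdd_mul (c := Cb) hKd.aestronglyMeasurable (Eventually.of_forall hCb)
  have hi2 : Integrable fun t : E n => fderiv ℝ (K n) t w :=
    hKd.integrable_of_hasCompactSupport (K_cpt.fderiv_apply ℝ w)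
  have e1 : ∫ t, fderiv ℝ (K n) t w * ℓ (kk n G R r (r⁻¹ • p - t)) =
      ∫ t, fderiv ℝ (K n) t w * ℓ (kk n G R r (r⁻¹ • p - t) - G p) := by
    have e2 : ∫ t, fderiv ℝ (K n) t w * ℓ (kk n G R r (r⁻¹ • p - t) - G p) =
        (∫ t, fderiv ℝ (K n) t w * ℓ (kk n G R r (r⁻¹ • p - t))) -
          ∫ t, fderiv ℝ (K n) t w * ℓ (G p) := by
      rw [← integral_sub hi1 (hi2.mul_const _)]
      refine integral_congr_ae (Eventually.of_forall fun t => ?_)
      show fderiv ℝ (K n) t w * ℓ (kk n G R r (r⁻¹ • p - t) - G p) = _ - _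
      rw [map_sub]
      ring
    rw [e2, integral_mul_const, K_d_int, zero_mul, sub_zero]
  rw [e1]
  have hb : Integrable (fun t => ‖w‖ * e * ‖fderiv ℝ (K n) t‖) := K_d_integrable.norm.const_mul _
  have h3 := norm_integral_le_of_norm_le
    (f := fun t => fderiv ℝ (K n) t w * ℓ (kk n G R r (r⁻¹ • p - t) - G p)) hb
    (Eventually.of_forall fun t => ?_)
  · rw [Real.norm_eq_abs, integral_const_mul] at h3
    refine h3.trans (le_of_eq ?_)
    unfold C1
    ring
  · rw [norm_mul, Real.norm_eq_abs (ℓ _)]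
    rcases le_or_gt ‖t‖ 1 with ht | ht
    · rw [kk_eq hr hp ht]
      have h4 : |ℓ (G (p - r • t) - G p)| ≤ e := by
        refine h _ ?_
        rw [sub_sub_cancel_left, norm_neg, norm_smul, Real.norm_of_nonneg hr.le]
        nlinarith
      calc ‖fderiv ℝ (K n) t w‖ * |ℓ (G (p - r • t) - G p)| ≤
            (‖fderiv ℝ (K n) t‖ * ‖w‖) * e := by
            refine mul_le_mul (ContinuousLinearMap.le_opNorm _ _) h4 (abs_nonneg _) (by positivity)
        _ = _ := by ring
    · rw [K_d_zero ht]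
      simp

end Pool.Agent.N824.CN
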