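import Pool.Agent.N824.CN.Loc

/-!
# The nearest point retraction onto a compact submanifold
-/

set_option autoImplicit false
set_option maxSynthPendingDepth 3

open Set Filter Topology Metric Function
open scoped Manifold ContDiff

noncomputable section

namespace Pool.Agent.N824.CN

open Pool.Agent.Y522 Pool.Agent.Y954.SH Pool.Agent.N824.CR

/-- the inverse function theorem -/
theorem ift {V W : Type} [NormedAddCommGroup V] [NormedSpace ℝ V] [CompleteSpace V]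
    [NormedAddCommGroup W] [NormedSpace ℝ W] {f : V → W} {x : V}
    (hf : ∀ᶠ y in 𝓝 x, ContDiffAt ℝ ∞ f y) (A : V ≃L[ℝ] W)
    (hA : HasFDerivAt f (A : V →L[ℝ] W) x) :
    ∃ g : W → V, g (f x) = x ∧ (∀ᶠ y in 𝓝 x, g (f y) = y) ∧
      ∀ᶠ w in 𝓝 (f x), ContDiffAt ℝ ∞ g w := by
  have hn : (∞ : WithTop ℕ∞) ≠ 0 := by simp
  have hfx : ContDiffAt ℝ ∞ f x := hf.self_of_nhds
  set Φ := hfx.toOpenPartialHomeomorph f hA hn with hΦ
  have hxs : x ∈ Φ.source := hfx.mem_toOpenPartialHomeomorph_source hA hn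
  have hcoe : (Φ : V → W) = f := hfx.toOpenPartialHomeomorph_coe hA hn
  have hfd : fderiv ℝ f x = A := hA.fderiv
  have hcont : ContinuousAt (fderiv ℝ f) x :=
    (hfx.fderiv_right (m := 0) (by simp)).continuousAt
  have h2 : ∀ᶠ y in 𝓝 x, fderiv ℝ f y ∈ range ((↑) : (V ≃L[ℝ] W) → (V →L[ℝ] W)) := by
    apply hcont
    rw [hfd]
    exact ContinuousLinearEquiv.nhds A
  obtain ⟨s, hs, hso, hxs'⟩ := _root_.eventually_nhds_iff.1 (hf.and h2)
  let Ψ := Φ.restrOpen s hso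
  have hcoe' : (Ψ : V → W) = f := hcoe
  have hxΨ : x ∈ Ψ.source := by
    rw [OpenPartialHomeomorph.restrOpen_source]
    exact ⟨hxs, hxs'⟩
  refine ⟨Ψ.symm, ?_, ?_, ?_⟩
  · have := Ψ.left_inv hxΨ
    rwa [hcoe'] at this
  · filter_upwards [Ψ.open_source.mem_nhds hxΨ] with y hy
    have := Ψ.left_inv hy
    rwa [hcoe'] at this
  · have h3 : f x ∈ Ψ.target := by
      have := Ψ.map_source hxΨ
      rwa [hcoe'] at this
    filter_upwards [Ψ.open_target.mem_nhds h3] with z hz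
    have h4 : Ψ.symm z ∈ Ψ.source := Ψ.map_target hz
    rw [OpenPartialHomeomorph.restrOpen_source] at h4
    obtain ⟨h6, B, hB⟩ := hs _ h4.2
    have h7 : HasFDerivAt Ψ (B : V →L[ℝ] W) (Ψ.symm z) := by
      rw [hcoe', hB]
      exact (h6.differentiableAt hn).hasFDerivAt
    have h9 : ContDiffAt ℝ ∞ Ψ (Ψ.symm z) := by
      rw [hcoe']
      exact h6
    exact Ψ.contDiffAt_symm hz h7 h9

variable {n : ℕ} {W : Type} [NormedAddCommGroup W] [InnerProductSpace ℝ W]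
  [FiniteDimensional ℝ W]

/-- the nearest point equation -/
theorem zeta {a : E n → W} (ha : ∀ᶠ z in 𝓝 0, ContDiffAt ℝ ∞ a z)
    (hinj : ∀ v, fderiv ℝ a 0 v = 0 → v = 0) :
    ∃ ζ : W → E n, ζ (a 0) = 0 ∧ (∀ᶠ w in 𝓝 (a 0), ContDiffAt ℝ ∞ ζ w) ∧
      ∀ᶠ p : E n × W in 𝓝 (0, a 0),
        (∀ v, inner ℝ (fderiv ℝ a p.1 v) (a p.1 - p.2) = 0) → p.1 = ζ p.2 := by
  obtain ⟨Gc, hGc⟩ : ∃ Gc : E n × W → E n, Gc = fun p => WithLp.toLp 2 fun i =>
    inner ℝ (fderiv ℝ a p.1 (EuclideanSpace.single i (1 : ℝ))) (a p.1 - p.2) := ⟨_, rfl⟩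
  have hGi : ∀ p i, Gc p i =
      inner ℝ (fderiv ℝ a p.1 (EuclideanSpace.single i (1 : ℝ))) (a p.1 - p.2) := by
    intro p i
    rw [hGc]
  obtain ⟨Ψ, hΨ⟩ : ∃ Ψ : E n × W → E n × W, Ψ = fun p => (Gc p, p.2) := ⟨_, rfl⟩
  have ha0 := ha.self_of_nhds
  have hsm : ∀ᶠ p : E n × W in 𝓝 (0, a 0), ContDiffAt ℝ ∞ Ψ p := by
    have h1 : ∀ᶠ p : E n × W in 𝓝 (0, a 0), ContDiffAt ℝ ∞ a p.1 :=
      (continuous_fst.tendsto _).eventually ha
    filter_upwards [h1] with p hp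
    rw [hΨ]
    refine ContDiffAt.prodMk ?_ contDiffAt_snd
    rw [contDiffAt_euclidean]
    intro i
    have h2 : ContDiffAt ℝ ∞ (fderiv ℝ a) p.1 := hp.fderiv_right (m := ∞) (by simp)
    have h3 : ContDiffAt ℝ ∞ (fun p : E n × W => fderiv ℝ a p.1) p :=
      h2.comp p contDiffAt_fst
    have h4 : ContDiffAt ℝ ∞ (fun p : E n × W => a p.1) p := hp.comp p contDiffAt_fst
    have h5 : ContDiffAt ℝ ∞ (fun p : E n × W =>
        inner ℝ (fderiv ℝ a p.1 (EuclideanSpace.single i (1 : ℝ))) (a p.1 - p.2)) p :=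
      (h3.clm_apply contDiffAt_const).inner ℝ (h4.sub contDiffAt_snd)
    rw [hGc]
    exact h5
  have hdΨ : HasFDerivAt Ψ (fderiv ℝ Ψ (0, a 0)) (0, a 0) :=
    (hsm.self_of_nhds.differentiableAt (by simp)).hasFDerivAt
  obtain ⟨T, hT⟩ : ∃ T, T = fderiv ℝ Ψ (0, a 0) := ⟨_, rfl⟩
  rw [← hT] at hdΨ
  have hT2 : ∀ z, (T z).2 = z.2 := by
    intro z
    have h1 : HasFDerivAt (fun p => (Ψ p).2) ((ContinuousLinearMap.snd ℝ (E n) W).comp T)
        (0, a 0) := (ContinuousLinearMap.snd ℝ (E n) W).hasFDerivAt.comp _ hdΨ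
    have h2 : HasFDerivAt (fun p => (Ψ p).2) (ContinuousLinearMap.snd ℝ (E n) W) (0, a 0) := by
      rw [hΨ]
      exact hasFDerivAt_snd
    have h3 := h1.unique h2
    exact congrArg (fun L => L z) h3
  have hT1 : ∀ z i, (T z).1 i = inner ℝ (fderiv ℝ a 0 (EuclideanSpace.single i (1 : ℝ)))
      (fderiv ℝ a 0 z.1 - z.2) := by
    intro z i
    obtain ⟨pr, hpr⟩ : ∃ pr : E n →L[ℝ] ℝ, ∀ v, pr v = v i :=
      ⟨PiLp.proj 2 (fun _ : Fin n => ℝ) i, fun v => rfl⟩
    have h1 : HasFDerivAt (fun p => (Ψ p).1 i) ((pr.comp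
        (ContinuousLinearMap.fst ℝ (E n) W)).comp T) (0, a 0) := by
      have h0 := (pr.comp (ContinuousLinearMap.fst ℝ (E n) W)).hasFDerivAt.comp _ hdΨ
      refine h0.congr_of_eventuallyEq (Eventually.of_forall fun p => ?_)
      exact (hpr _).symm
    have h2 : ContDiffAt ℝ ∞ (fun p : E n × W =>
        fderiv ℝ a p.1 (EuclideanSpace.single i (1 : ℝ))) (0, a 0) := by
      have h2 : ContDiffAt ℝ ∞ (fderiv ℝ a) 0 := ha0.fderiv_right (m := ∞) (by simp)
      have h3 : ContDiffAt ℝ ∞ (fun p : E n × W => fderiv ℝ a p.1) (0, a 0) :=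
        ContDiffAt.comp (0, a 0) (f := Prod.fst) h2 contDiffAt_fst
      exact h3.clm_apply contDiffAt_const
    have h3 := (h2.differentiableAt (by simp)).hasFDerivAt
    have h4 : HasFDerivAt (fun p : E n × W => a p.1 - p.2) ((fderiv ℝ a 0).comp
        (ContinuousLinearMap.fst ℝ (E n) W) - ContinuousLinearMap.snd ℝ (E n) W) (0, a 0) := by
      refine HasFDerivAt.sub ?_ hasFDerivAt_snd
      have h5 : HasFDerivAt a (fderiv ℝ a 0) ((0 : E n), a 0).1 :=
        (ha0.differentiableAt (by simp)).hasFDerivAt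
      exact h5.comp _ hasFDerivAt_fst
    have h5 := h3.inner ℝ h4
    have h6 : (fun p : E n × W => inner ℝ (fderiv ℝ a p.1 (EuclideanSpace.single i (1 : ℝ)))
        (a p.1 - p.2)) = fun p => (Ψ p).1 i := by
      funext p
      rw [hΨ]
      exact (hGi p i).symm
    rw [h6] at h5
    have h7 := congrArg (fun L => L z) (h1.unique h5)
    simp only [ContinuousLinearMap.comp_apply, fderivInnerCLM_apply, hpr] at h7
    have h8 : (T z).1 i = inner ℝ (fderiv ℝ a 0 (EuclideanSpace.single i (1 : ℝ)))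
      (fderiv ℝ a 0 z.1 - z.2) + inner ℝ ((fderiv ℝ (fun p : E n × W =>
        fderiv ℝ a p.1 (EuclideanSpace.single i (1 : ℝ))) (0, a 0)) z) (a 0 - a 0) := h7
    rw [h8, sub_self, inner_zero_right, add_zero]
  have hTi : Injective T := by
    rw [injective_iff_map_eq_zero]
    intro z hz
    have h1 : z.2 = 0 := by
      rw [← hT2, hz]
      rfl
    have h2 : ∀ i, inner ℝ (fderiv ℝ a 0 (EuclideanSpace.single i (1 : ℝ)))
        (fderiv ℝ a 0 z.1) = 0 := by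
      intro i
      have := hT1 z i
      rw [hz, h1, sub_zero] at this
      rw [← this]
      rfl
    have h3 : ∀ x : E n, inner ℝ (fderiv ℝ a 0 x) (fderiv ℝ a 0 z.1) = 0 := by
      intro x
      have h4 : x = ∑ i, x i • EuclideanSpace.single i (1 : ℝ) := by
        have := (EuclideanSpace.basisFun (Fin n) ℝ).sum_repr x
        simpa using this.symm
      rw [h4, map_sum, sum_inner]
      refine Finset.sum_eq_zero fun i _ => ?_
      rw [map_smul, inner_smul_left, h2 i, mul_zero]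
    have h5 := hinj z.1 (inner_self_eq_zero.1 (h3 z.1))
    exact Prod.ext h5 h1
  obtain ⟨A, hA⟩ : ∃ A : (E n × W) ≃L[ℝ] (E n × W), (A : (E n × W) →L[ℝ] (E n × W)) = T := by
    refine ⟨(LinearEquiv.ofInjectiveEndo (T : (E n × W) →ₗ[ℝ] (E n × W))
      hTi).toContinuousLinearEquiv, ?_⟩
    ext z <;> rfl
  rw [← hA] at hdΨ
  obtain ⟨g, hg1, hg2, hg3⟩ := ift hsm A hdΨ
  have hΨ0 : Ψ (0, a 0) = (0, a 0) := by
    rw [hΨ]
    refine Prod.ext ?_ rfl
    ext i
    show Gc (0, a 0) i = 0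
    rw [hGi]
    show inner ℝ _ (a 0 - a 0) = 0
    rw [sub_self, inner_zero_right]
  rw [hΨ0] at hg1 hg3
  refine ⟨fun w => (g (0, w)).1, ?_, ?_, ?_⟩
  · show (g (0, a 0)).1 = 0
    rw [hg1]
  · have h1 : Continuous fun w : W => ((0 : E n), w) := by fun_prop
    have h2 : ∀ᶠ w in 𝓝 (a 0), ContDiffAt ℝ ∞ g (0, w) := (h1.tendsto (a 0)).eventually hg3
    filter_upwards [h2] with w hw
    exact contDiffAt_fst.comp w (hw.comp w (contDiffAt_const.prodMk contDiffAt_id))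
  · filter_upwards [hg2] with p hp hc
    have h1 : Ψ p = (0, p.2) := by
      rw [hΨ]
      refine Prod.ext ?_ rfl
      ext i
      show Gc p i = 0
      rw [hGi]
      exact hc _
    rw [h1] at hp
    exact (congrArg Prod.fst hp).symm

end Pool.Agent.N824.CN
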